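import Pool.Agent.LGU.St

/-!
# Masks which avoid a set (`St_Avd`)

Helper33, for MP_0707f5_ag (plan of helper1).
-/

set_option autoImplicit false

open scoped BigOperators

namespace Pool.Agent.LGU

open scoped Classical

private theorem avd1 (m q : ℕ) (N : Finset (Fin m → Bool)) (P : Finset (Fin m)) (hP : P.card ≤ q)
    (hN : N.card * 2 ^ q < 2 ^ m) : ∃ c : Fin m → Bool, c ∉ N ∧ ∀ i ∈ P, c i = true := by
  by_contra hcon
  push Not at hcon
  let S : Finset (Fin m → Bool) :=
    Fintype.piFinset fun i => if i ∈ P then ({true} : Finset Bool) else Finset.univ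
  have hS : S ⊆ N := by
    intro c hc
    by_contra hcN
    obtain ⟨i, hi, hci⟩ := hcon c hcN
    have h1 := Fintype.mem_piFinset.1 hc i
    rw [if_pos hi, Finset.mem_singleton] at h1
    exact hci h1
  have h1 : S.card = 2 ^ (Finset.univ \ P).card := by
    show (Fintype.piFinset fun i => if i ∈ P then ({true} : Finset Bool) else Finset.univ).card = _
    rw [Fintype.card_piFinset]
    have h2 : ∀ i : Fin m, (if i ∈ P then ({true} : Finset Bool) else Finset.univ).card =
        if i ∈ P then 1 else 2 := by
      intro i
      split_ifs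
      · rfl
      · rfl
    rw [Finset.prod_congr rfl fun i _ => h2 i, Finset.prod_ite, Finset.prod_const_one, one_mul,
      Finset.prod_const]
    congr 2
    ext i
    simp
  have h2 : (Finset.univ \ P).card + P.card = m := by
    rw [Finset.card_sdiff_add_card_eq_card (Finset.subset_univ P), Finset.card_univ,
      Fintype.card_fin]
  have h3 := Finset.card_le_card hS
  have h4 : 2 ^ m ≤ S.card * 2 ^ q := by
    rw [h1, ← pow_add]
    exact Nat.pow_le_pow_right (by norm_num) (by omega)
  have h5 := Nat.mul_le_mul_right (2 ^ q) h3
  omega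

private theorem avd2 (m : ℕ) :
    ∑ c : Fin m → Bool, ((7 : ℝ) / 8) ^ (List.ofFn c).count false = (15 / 8) ^ m := by
  induction m with
  | zero => simp
  | succ m ih =>
    rw [← (Fin.consEquiv fun _ : Fin (m + 1) => Bool).sum_comp, Fintype.sum_prod_type]
    have h1 : ∀ (b : Bool) (c : Fin m → Bool),
        (List.ofFn ((Fin.consEquiv fun _ : Fin (m + 1) => Bool) (b, c))).count false =
          (List.ofFn c).count false + (if b = false then 1 else 0) := by
      intro b c
      have h2 : List.ofFn ((Fin.consEquiv fun _ : Fin (m + 1) => Bool) (b, c)) =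
          b :: List.ofFn c := by
        rw [List.ofFn_succ]
        simp [Fin.consEquiv]
      rw [h2, List.count_cons]
      cases b <;> simp
    simp only [h1, pow_add]
    rw [Fintype.sum_bool]
    simp only [← Finset.sum_mul]
    rw [ih]
    simp only [if_true, Bool.true_eq_false, if_false, pow_zero, pow_one]
    ring

theorem thm_Avd : St_Avd := ⟨avd1, avd2⟩

end Pool.Agent.LGU
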