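import Pool.Agent.LGU.St
import Pool.Agent.PWE.Dsp

/-!
# Arbitrary subgroups of small index, module Bcg: a subgroup with three good blocks is generated by products of
letters of reached lists (helper98, after PWG Tbs, Emi, Ele, Eri, Bsc)
-/

set_option autoImplicit false

namespace Pool.Agent.LGU

open Pool.Agent.PW Pool.Agent.PWM Pool.Agent.PWB Pool.Agent.PWX Pool.Agent.PWF Pool.Agent.PWL
  Pool.Agent.PWY Pool.Agent.PWE Pool.Agent.PWG Pool.Agent.ARH
open SpQ (Hd WStep WReach WExt Good bd cj1)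
open scoped Classical

/-- The section over the cosets of `K`. -/
private def TG {g : ℕ} (K : Subgroup (F g 0)) (k : ℕ) : Set (F g 0) :=
  {t | ∃ x ∈ Ds (⊤ : Subgroup (F g 0)) (bk g 0 k 0), x⁻¹ * t ∈ Lg K}

/-- The stabiliser of the section. -/
private def EG {g : ℕ} (K : Subgroup (F g 0)) (k : ℕ) : Subgroup (F g 0) where
  carrier := {y | ∀ t, y * t ∈ TG K k ↔ t ∈ TG K k}
  one_mem' := fun t => by rw [one_mul]
  mul_mem' := fun {x y} hx hy t => by rw [mul_assoc, hx, hy]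
  inv_mem' := fun {x} hx t => by rw [← hx (x⁻¹ * t), mul_inv_cancel_left]

private def Tb : Prop := ∀ {g k : ℕ} (K : Subgroup (F g 0)), 1 ≤ k → 1 + 3 * k ≤ g →
  (∀ t, t < 3 → Jf K (bk g 0 k t)) →
  (∀ w : F g 0, ∃ t ∈ TG K k, w⁻¹ * t ∈ K) ∧
  (∀ t ∈ TG K k, ∀ t' ∈ TG K k, t⁻¹ * t' ∈ K → t⁻¹ * t' ∈ Lg K) ∧
  (∀ s, 1 ≤ s → s < 3 → ∀ a ∈ Ds (⊤ : Subgroup (F g 0)) (bk g 0 k s), a⁻¹ ∈ TG K k) ∧
  (∀ t ∈ TG K k, ∃ x ∈ Ds (⊤ : Subgroup (F g 0)) (bk g 0 k 1), x⁻¹ * t ∈ Lg K) ∧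
  (∀ y : F g 0, (∀ t ∈ TG K k, y * t ∈ TG K k) → y ∈ EG K k) ∧
  ∀ (L' : List (F g 0 × F g 0)), LG (lst (MonoidHom.id (F g 0)) 0 g) L' →
    ∀ x ∈ Ds (⊤ : Subgroup (F g 0)) (L'.map Prod.snd), x ∈ K → x ∈ Lg K



private theorem tbs_lst (g : ℕ) :
    (lst (MonoidHom.id (F g 0)) 0 g).map Prod.snd = gbl g 0 := by
  apply List.ext_getElem
  · simp [lst, gbl]
  · intro i h1 h2
    have h3 : i < g := by simpa [gbl] using h2
    simp [lst, gbl, vls, h3]

private theorem tbs_sub {α : Type} (l : List α) {k i j : ℕ} (h : i < j) :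
    List.Sublist (((l.drop (1 + i * k)).take k) ++ ((l.drop (1 + j * k)).take k)) l := by
  have h1 : (1 + i * k) + k ≤ 1 + j * k := by nlinarith [Nat.mul_le_mul_right k h]
  have h2 : List.Sublist ((l.drop (1 + i * k)).take k) (l.take (1 + j * k)) := by
    rw [List.take_drop]
    refine (List.drop_sublist _ _).trans ?_
    have h5 : l.take (1 + i * k + k) = (l.take (1 + j * k)).take (1 + i * k + k) := by
      rw [List.take_take, min_eq_left h1]
    rw [h5]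
    exact List.take_sublist _ _
  have h3 : List.Sublist ((l.drop (1 + j * k)).take k) (l.drop (1 + j * k)) :=
    List.take_sublist _ _
  have h4 := h2.append h3
  rwa [List.take_append_drop] at h4

private theorem tbs_le {g : ℕ} (K : Subgroup (F g 0)) : Lg K ≤ K :=
  (Subgroup.closure_le _).2 fun _ h => h.1

private theorem tb : Pool.Agent.PWE.St_Dsp → Tb := by
  intro hDsp g k K _ _ hJ
  have e0 : ∀ (L' : List (F g 0 × F g 0)), LG (lst (MonoidHom.id (F g 0)) 0 g) L' →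
      ∀ x ∈ Ds (⊤ : Subgroup (F g 0)) (L'.map Prod.snd), x ∈ K → x ∈ Lg K :=
    fun L' hL x hx hK => Subgroup.subset_closure ⟨hK, L', hL, hx⟩
  have e1 : ∀ i j, i < j → ∀ x ∈ Ds (⊤ : Subgroup (F g 0)) (bk g 0 k i),
      ∀ a ∈ Ds (⊤ : Subgroup (F g 0)) (bk g 0 k j), a * x ∈ K → a * x ∈ Lg K := by
    intro i j hij x hx a ha hK
    refine e0 _ (PWH.bBas.1 _) _ ?_ hK
    rw [tbs_lst]
    exact (@hDsp (F g 0) _).2.1 (gbl g 0) _ (tbs_sub (gbl g 0) hij)
      ((@hDsp (F g 0) _).1 _ _ x a hx ha)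
  have e2 : ∀ t ∈ TG K k, ∃ x ∈ Ds (⊤ : Subgroup (F g 0)) (bk g 0 k 0), x⁻¹ * t ∈ Lg K :=
    fun t ht => ht
  have c1 : ∀ w : F g 0, ∃ t ∈ TG K k, w⁻¹ * t ∈ K := by
    intro w
    obtain ⟨x, hx, h1⟩ := hJ 0 (by norm_num) 1 w
    refine ⟨x, ⟨x, hx, ?_⟩, ?_⟩
    · rw [inv_mul_cancel]
      exact (Lg K).one_mem
    · rwa [mul_one] at h1
  have c2 : ∀ t ∈ TG K k, ∀ t' ∈ TG K k, t⁻¹ * t' ∈ K → t⁻¹ * t' ∈ Lg K := by
    intro t ht t' ht' h
    obtain ⟨x, hx, hl⟩ := e2 t ht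
    obtain ⟨x', hx', hl'⟩ := e2 t' ht'
    obtain ⟨a, ha, h1⟩ := hJ 1 (by norm_num) x 1
    rw [inv_one, one_mul] at h1
    have h2 : a * x' ∈ K := by
      have h3 : a * x' = (a * x) * ((x⁻¹ * t) * (t⁻¹ * t') * (x'⁻¹ * t')⁻¹) := by group
      rw [h3]
      exact K.mul_mem h1 (K.mul_mem (K.mul_mem (tbs_le K hl) h) (K.inv_mem (tbs_le K hl')))
    have h4 := e1 0 1 (by norm_num) x hx a ha h1
    have h5 := e1 0 1 (by norm_num) x' hx' a ha h2
    have h6 : t⁻¹ * t' = (x⁻¹ * t)⁻¹ * ((a * x)⁻¹ * (a * x')) * (x'⁻¹ * t') := by group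
    rw [h6]
    exact (Lg K).mul_mem ((Lg K).mul_mem ((Lg K).inv_mem hl)
      ((Lg K).mul_mem ((Lg K).inv_mem h4) h5)) hl'
  have c4 : ∀ t ∈ TG K k, ∃ x ∈ Ds (⊤ : Subgroup (F g 0)) (bk g 0 k 1), x⁻¹ * t ∈ Lg K := by
    intro t ht
    obtain ⟨x, hx, h1⟩ := hJ 1 (by norm_num) 1 t
    rw [mul_one] at h1
    obtain ⟨y, hy, hl⟩ := e2 t ht
    obtain ⟨a, ha, h2⟩ := hJ 2 (by norm_num) x 1
    rw [inv_one, one_mul] at h2
    have h3 : a * y ∈ K := by
      have h4 : a * y = (a * x) * ((t⁻¹ * x)⁻¹ * (y⁻¹ * t)⁻¹) := by group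
      rw [h4]
      exact K.mul_mem h2 (K.mul_mem (K.inv_mem h1) (K.inv_mem (tbs_le K hl)))
    have h5 := e1 1 2 (by norm_num) x hx a ha h2
    have h6 := e1 0 2 (by norm_num) y hy a ha h3
    refine ⟨x, hx, ?_⟩
    have h7 : x⁻¹ * t = (a * x)⁻¹ * (a * y) * (y⁻¹ * t) := by group
    rw [h7]
    exact (Lg K).mul_mem ((Lg K).mul_mem ((Lg K).inv_mem h5) h6) hl
  refine ⟨c1, c2, ?_, c4, ?_, e0⟩
  · intro s hs1 _ a ha
    obtain ⟨x, hx, h1⟩ := hJ 0 (by norm_num) 1 a⁻¹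
    rw [inv_inv, mul_one] at h1
    refine ⟨x, hx, ?_⟩
    have h2 : x⁻¹ * a⁻¹ = (a * x)⁻¹ := by group
    rw [h2]
    exact (Lg K).inv_mem (e1 0 s (by omega) x hx a ha h1)
  · intro y hy t
    refine ⟨fun ht => ?_, fun ht => hy t ht⟩
    obtain ⟨t', ht', h1⟩ := c1 t
    have h2 := hy t' ht'
    have h3 : (y * t)⁻¹ * (y * t') = t⁻¹ * t' := by group
    have h4 := c2 _ ht _ h2 (by rw [h3]; exact h1)
    rw [h3] at h4
    obtain ⟨x, hx, hl⟩ := e2 t' ht'
    refine ⟨x, hx, ?_⟩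
    have h5 : x⁻¹ * t = (x⁻¹ * t') * (t⁻¹ * t')⁻¹ := by group
    rw [h5]
    exact (Lg K).mul_mem hl ((Lg K).inv_mem h4)


private def El : Prop := ∀ {g k : ℕ} (K : Subgroup (F g 0)), 1 ≤ k → 1 + 3 * k ≤ g →
  (∀ t, t < 3 → Jf K (bk g 0 k t)) → ∀ i : Fin g, (i : ℕ) < 1 + k →
  (∀ j : Fin g, (i : ℕ) < j → (j : ℕ) < 1 + 2 * k → ga j ∈ EG K k ∧ gb j ∈ EG K k) →
  ga i ∈ EG K k ∧ gb i ∈ EG K k



private theorem cj_cj {Q : Type} [Group Q] (a b : Q) (p : Q × Q) : cj a (cj b p) = cj (a * b) p := by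
  refine Prod.ext ?_ ?_
  · show a * (b * p.1 * b⁻¹) * a⁻¹ = a * b * p.1 * (a * b)⁻¹
    group
  · show a * (b * p.2 * b⁻¹) * a⁻¹ = a * b * p.2 * (a * b)⁻¹
    group

private theorem pass {Q : Type} [Group Q] (B : List (Q × Q)) : ∀ p : Q × Q,
    LG (p :: B) (B ++ [cj (Dp B)⁻¹ p]) := by
  induction B with
  | nil =>
    intro p
    have h1 : cj (Dp ([] : List (Q × Q)))⁻¹ p = p := by
      refine Prod.ext ?_ ?_
      · show (Dp ([] : List (Q × Q)))⁻¹ * p.1 * (Dp ([] : List (Q × Q)))⁻¹⁻¹ = p.1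
        simp [Dp]
      · show (Dp ([] : List (Q × Q)))⁻¹ * p.2 * (Dp ([] : List (Q × Q)))⁻¹⁻¹ = p.2
        simp [Dp]
    rw [h1]
    exact PWH.bBas.1 _
  | cons q B ih =>
    intro p
    have h1 := PWH.bBas.2.2.2.1 [] [p, q] [q, cj (dd q)⁻¹ p] B (PWH.bBas.2.2.2.2.1 p q)
    have h2 := PWH.bBas.2.2.2.1 [q] _ _ [] (ih (cj (dd q)⁻¹ p))
    have h3 : Dp (q :: B) = dd q * Dp B := by simp [Dp]
    have h4 : cj (Dp B)⁻¹ (cj (dd q)⁻¹ p) = cj (Dp (q :: B))⁻¹ p := by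
      rw [cj_cj, h3, mul_inv_rev]
    rw [h4] at h2
    refine PWH.bBas.2.1 _ _ _ ?_ (by simpa using h2)
    simpa using h1

section

variable {g : ℕ}

/-- the pair of the handle `j` -/
private def f0 (g : ℕ) (j : ℕ) : F g 0 × F g 0 := vls (MonoidHom.id (F g 0)) j

private theorem f0_lt {j : ℕ} (h : j < g) : f0 g j = (ga ⟨j, h⟩, gb ⟨j, h⟩) := by
  simp [f0, vls, h]

private theorem full_eq : lst (MonoidHom.id (F g 0)) 0 g = (List.range' 0 g).map (f0 g) := by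
  unfold lst
  rw [← List.range_eq_range']
  apply List.map_congr_left
  intro j _
  rw [Nat.zero_add]
  rfl

private theorem gbl_eq : gbl g 0 = (List.range' 0 g).map fun j => (f0 g j).2 := by
  apply List.ext_getElem
  · simp [gbl]
  · intro j h1 h2
    have hj : j < g := by simpa [gbl] using h1
    simp [gbl, f0_lt hj]

private theorem bk_eq {k : ℕ} (t : ℕ) (h : 1 + (t + 1) * k ≤ g) :
    bk g 0 k t = (List.range' (1 + t * k) k).map fun j => (f0 g j).2 := by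
  unfold bk
  rw [gbl_eq, ← List.map_drop, ← List.map_take, List.drop_range']
  congr 1
  have h0 : (t + 1) * k = t * k + k := by ring
  have h1 : g - (1 + t * k) = k + (g - (1 + t * k) - k) := by omega
  have h2 : 0 + (1 + t * k) * 1 = 1 + t * k := by ring
  rw [h1, h2, ← List.range'_append_1]
  apply List.take_left'
  exact List.length_range'

end

private theorem ele_key (hTbs : Tb) (hDsp : Pool.Agent.PWE.St_Dsp) {g k : ℕ} (K : Subgroup (F g 0))
    (hk : 1 ≤ k) (hg : 1 + 3 * k ≤ g) (hJ : ∀ t, t < 3 → Jf K (bk g 0 k t)) (i : Fin g)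
    (hi : (i : ℕ) < 1 + k)
    (hE : ∀ j : Fin g, (i : ℕ) < j → (j : ℕ) < 1 + 2 * k → ga j ∈ EG K k ∧ gb j ∈ EG K k)
    (p : F g 0 × F g 0) (hp : LG [((ga i : F g 0), (gb i : F g 0))] [p]) : p.2 ∈ EG K k := by
  obtain ⟨-, -, h3, h4, h5, h6⟩ := hTbs K hk hg hJ
  obtain ⟨d1, d2, -⟩ := hDsp (H := F g 0)
  set A : List (F g 0 × F g 0) := (List.range' 0 i).map (f0 g) with hA
  set B : List (F g 0 × F g 0) := (List.range' (i + 1) (2 * k - i)).map (f0 g) with hB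
  set C : List (F g 0 × F g 0) := (List.range' (1 + 2 * k) (g - 1 - 2 * k)).map (f0 g) with hC
  have hfull : lst (MonoidHom.id (F g 0)) 0 g = A ++ (((ga i : F g 0), (gb i : F g 0)) :: (B ++ C)) := by
    rw [full_eq, hA, hB, hC]
    have e1 : List.range' 0 g = List.range' 0 i ++ (i : ℕ) :: (List.range' (i + 1) (2 * k - i) ++
        List.range' (1 + 2 * k) (g - 1 - 2 * k)) := by
      have e2 : List.range' (i + 1) (2 * k - i) ++ List.range' (1 + 2 * k) (g - 1 - 2 * k) =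
          List.range' (i + 1) (g - 1 - i) := by
        have e3 : 1 + 2 * k = (i + 1 : ℕ) + (2 * k - i) := by omega
        have e4 : g - 1 - i = (2 * k - i) + (g - 1 - 2 * k) := by omega
        rw [e4, ← List.range'_append_1, ← e3]
      rw [e2]
      have e5 : (i : ℕ) :: List.range' (i + 1) (g - 1 - i) = List.range' i (g - i) := by
        have e6 : g - i = (g - 1 - i) + 1 := by
          have := i.2
          omega
        rw [e6, List.range'_succ]
      rw [e5]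
      have e7 : List.range' 0 g = List.range' 0 ((i : ℕ) + (g - i)) := by
        congr 1
        have := i.2
        omega
      rw [e7, ← List.range'_append_1, Nat.zero_add]
    rw [e1, List.map_append, List.map_cons, List.map_append, f0_lt i.2]
  set D : F g 0 := Dp B with hD
  have hDE : D ∈ EG K k := by
    rw [hD]
    unfold Dp
    apply Subgroup.list_prod_mem
    intro x hx
    rw [List.mem_map] at hx
    obtain ⟨q, hq, rfl⟩ := hx
    rw [hB, List.mem_map] at hq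
    obtain ⟨j, hj, rfl⟩ := hq
    rw [List.mem_range'_1] at hj
    have hjg : j < g := by omega
    have hj2 := hE ⟨j, hjg⟩ (by show (i : ℕ) < j; omega) (by show j < 1 + 2 * k; omega)
    rw [f0_lt hjg]
    exact (EG K k).mul_mem ((EG K k).mul_mem ((EG K k).mul_mem hj2.1 hj2.2)
      ((EG K k).inv_mem hj2.1)) ((EG K k).inv_mem hj2.2)
  set y : F g 0 := D⁻¹ * p.2 * D with hy
  have hLG : LG (lst (MonoidHom.id (F g 0)) 0 g) (A ++ (B ++ cj D⁻¹ p :: C)) := by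
    rw [hfull]
    have g1 := PWH.bBas.2.2.2.1 A _ _ (B ++ C) hp
    have g2 := PWH.bBas.2.2.2.1 A _ _ C (pass B p)
    refine PWH.bBas.2.1 _ (A ++ (p :: (B ++ C))) _ (by simpa using g1) ?_
    simpa using g2
  have hyE : y ∈ EG K k := by
    apply h5
    intro t ht
    obtain ⟨x, hx, hxt⟩ := h4 t ht
    obtain ⟨a, ha, hax⟩ := hJ 2 (by norm_num) (y * x) 1
    rw [inv_one, one_mul] at hax
    have hsx : x ∈ Ds (⊤ : Subgroup (F g 0)) ((A ++ B).map Prod.snd) := by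
      refine d2 _ _ ?_ hx
      rw [bk_eq 1 (by omega), hB, List.map_append]
      refine List.Sublist.trans ?_ (List.sublist_append_right _ _)
      rw [List.map_map]
      have e1 : List.range' (i + 1) (2 * k - i) =
          List.range' (i + 1) (k - i) ++ List.range' (1 + 1 * k) k := by
        have e2 : 2 * k - i = (k - i) + k := by omega
        have e3 : 1 + 1 * k = (i + 1 : ℕ) + (k - i) := by omega
        rw [e2, ← List.range'_append_1, ← e3]
      rw [e1, List.map_append]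
      exact List.sublist_append_right _ _
    have hsa : a ∈ Ds (⊤ : Subgroup (F g 0)) (C.map Prod.snd) := by
      refine d2 _ _ ?_ ha
      rw [bk_eq 2 (by omega), hC, List.map_map]
      have e1 : List.range' (1 + 2 * k) (g - 1 - 2 * k) =
          List.range' (1 + 2 * k) k ++ List.range' (1 + 2 * k + k) (g - 1 - 3 * k) := by
        have e2 : g - 1 - 2 * k = k + (g - 1 - 3 * k) := by omega
        rw [e2, ← List.range'_append_1]
      rw [e1, List.map_append]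
      exact List.sublist_append_left _ _
    have hay : a * y ∈ Ds (⊤ : Subgroup (F g 0)) ((cj D⁻¹ p :: C).map Prod.snd) := by
      have e1 : ((cj D⁻¹ p :: C).map Prod.snd) = [y] ++ C.map Prod.snd := by
        rw [List.map_cons, List.singleton_append]
        congr 1
        show D⁻¹ * p.2 * D⁻¹⁻¹ = y
        rw [inv_inv]
      rw [e1]
      refine d1 _ _ _ _ ?_ hsa
      simp [Ds]
    have hall : a * (y * x) ∈ Ds (⊤ : Subgroup (F g 0))
        ((A ++ (B ++ cj D⁻¹ p :: C)).map Prod.snd) := by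
      have e1 : (A ++ (B ++ cj D⁻¹ p :: C)).map Prod.snd =
          (A ++ B).map Prod.snd ++ (cj D⁻¹ p :: C).map Prod.snd := by
        rw [← List.map_append, List.append_assoc]
      rw [e1, ← mul_assoc]
      exact d1 _ _ _ _ hsx hay
    have hL : a * (y * x) ∈ Lg K := h6 _ hLG _ hall hax
    obtain ⟨x0, hx0, hx0a⟩ := h3 2 (by norm_num) (by norm_num) a ha
    refine ⟨x0, hx0, ?_⟩
    have e1 : x0⁻¹ * (y * t) = (x0⁻¹ * a⁻¹) * (a * (y * x)) * (x⁻¹ * t) := by group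
    rw [e1]
    exact (Lg K).mul_mem ((Lg K).mul_mem hx0a hL) hxt
  have e1 : p.2 = D * y * D⁻¹ := by
    rw [hy]
    group
  rw [e1]
  exact (EG K k).mul_mem ((EG K k).mul_mem hDE hyE) ((EG K k).inv_mem hDE)

private theorem el (hTbs : Tb) (hDsp : Pool.Agent.PWE.St_Dsp) : El := by
  intro g k K hk hg hJ i hi hE
  have h1 : gb i ∈ EG K k :=
    ele_key hTbs hDsp K hk hg hJ i hi hE (ga i, gb i) (PWH.bBas.1 _)
  have h2 : gb i * ga i * (gb i)⁻¹ ∈ EG K k :=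
    ele_key hTbs hDsp K hk hg hJ i hi hE (rt (ga i, gb i)) (PWH.bBas.2.2.2.2.2.1 _)
  refine ⟨?_, h1⟩
  have e1 : (ga i : F g 0) = (gb i)⁻¹ * (gb i * ga i * (gb i)⁻¹) * gb i := by group
  rw [e1]
  exact (EG K k).mul_mem ((EG K k).mul_mem ((EG K k).inv_mem h1) h2) h1


private def Er : Prop := ∀ {g k : ℕ} (K : Subgroup (F g 0)), 1 ≤ k → 1 + 3 * k ≤ g →
  (∀ t, t < 3 → Jf K (bk g 0 k t)) → ∀ i : Fin g, 1 + 2 * k ≤ (i : ℕ) →
  ga i ∈ EG K k ∧ gb i ∈ EG K k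



private theorem Eri_lst (g : ℕ) :
    (lst (MonoidHom.id (F g 0)) 0 g).map Prod.snd = gbl g 0 := by
  apply List.ext_getElem
  · simp [lst, gbl]
  · intro i h1 h2
    have hi : i < g := by
      simpa [lst] using h1
    simp [lst, gbl, vls, hi]

private theorem Eri_len (g : ℕ) : (lst (MonoidHom.id (F g 0)) 0 g).length = g := by
  simp [lst]

private theorem Eri_get (g : ℕ) (i : Fin g)
    (h : (i : ℕ) < (lst (MonoidHom.id (F g 0)) 0 g).length) :
    (lst (MonoidHom.id (F g 0)) 0 g)[(i : ℕ)] = (ga i, gb i) := by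
  simp [lst, vls]

/-- A list is cut at two places. -/
private theorem Eri_cut {α : Type} (l : List α) (a i : ℕ) (hai : a ≤ i) (hi : i < l.length) :
    l = l.take a ++ ((l.drop a).take (i - a) ++ l[i] :: l.drop (i + 1)) := by
  have h1 : (l.drop a).drop (i - a) = l[i] :: l.drop (i + 1) := by
    rw [List.drop_drop, show a + (i - a) = i by omega, List.drop_eq_getElem_cons hi]
  rw [← h1, List.take_append_drop, List.take_append_drop]

private theorem Eri_sgl {G : Type} [Group G] (x : G) : x ∈ Ds (⊤ : Subgroup G) [x] := by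
  unfold Ds
  rw [if_pos (Subgroup.mem_top _), Finset.mem_union, Finset.mem_image]
  right
  refine ⟨1, ?_, one_mul _⟩
  unfold Ds
  exact Finset.mem_singleton_self _

private theorem Eri_key {g k : ℕ} (hTbs : Tb) (hDsp : Pool.Agent.PWE.St_Dsp) (K : Subgroup (F g 0))
    (hk : 1 ≤ k) (hg : 1 + 3 * k ≤ g) (hJ : ∀ t, t < 3 → Jf K (bk g 0 k t)) (i : Fin g)
    (hi : 1 + 2 * k ≤ (i : ℕ)) (q : F g 0 × F g 0) (hq : LG [(ga i, gb i)] [q]) :
    q.2 ∈ EG K k := by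
  obtain ⟨-, -, -, -, hT5, hT6⟩ := hTbs K hk hg hJ
  obtain ⟨hD1, hD2, hD3⟩ := hDsp (H := F g 0)
  obtain ⟨-, b2, -, b4, -, -, -⟩ := PWH.bBas
  obtain ⟨M, hM⟩ : ∃ M, M = lst (MonoidHom.id (F g 0)) 0 g := ⟨_, rfl⟩
  obtain ⟨A, hA⟩ : ∃ A, A = M.take (1 + k) := ⟨_, rfl⟩
  obtain ⟨B, hB⟩ : ∃ B, B = (M.drop (1 + k)).take ((i : ℕ) - (1 + k)) := ⟨_, rfl⟩
  obtain ⟨C, hC⟩ : ∃ C, C = M.drop ((i : ℕ) + 1) := ⟨_, rfl⟩
  obtain ⟨c, hc⟩ : ∃ c, c = (dd q)⁻¹ := ⟨_, rfl⟩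
  have hMl : M.length = g := by rw [hM, Eri_len]
  have hiM : (i : ℕ) < M.length := by rw [hMl]; exact i.2
  have hMi : M[(i : ℕ)] = (ga i, gb i) := by
    subst hM
    exact Eri_get g i hiM
  have hMeq : M = A ++ (B ++ (ga i, gb i) :: C) := by
    have h := Eri_cut M (1 + k) i (by omega) hiM
    rw [hMi, ← hA, ← hB, ← hC] at h
    exact h
  -- the list which is reached
  have hL : LG M (A ++ (q :: (B.map (cj c) ++ C))) := by
    have h1 : LG (A ++ (B ++ (ga i, gb i) :: C)) (A ++ (B ++ q :: C)) := by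
      have h := b4 (A ++ B) [(ga i, gb i)] [q] C hq
      simpa only [List.append_assoc, List.singleton_append] using h
    have h2 : LG (A ++ (B ++ q :: C)) (A ++ (q :: (B.map (cj c) ++ C))) := by
      have h := b4 A (B ++ q :: C) (q :: (B.map (cj (dd q)⁻¹) ++ C)) [] (eFrt.1 B C q)
      rw [← hc] at h
      simpa only [List.append_nil] using h
    have h3 := b2 _ _ _ h1 h2
    rwa [← hMeq] at h3
  -- the letters of the blocks
  have hMs : M.map Prod.snd = gbl g 0 := by rw [hM, Eri_lst]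
  have hb0 : List.Sublist (bk g 0 k 0) (A.map Prod.snd) := by
    have h1 : A.map Prod.snd = (gbl g 0).take (1 + k) := by
      rw [hA, List.map_take, hMs]
    have h2 : bk g 0 k 0 = ((gbl g 0).take (1 + k)).drop 1 := by
      unfold bk
      rw [List.drop_take]
      simp
    rw [h1, h2]
    exact List.drop_sublist _ _
  have hb1 : List.Sublist (bk g 0 k 1) (B.map Prod.snd) := by
    have h1 : B.map Prod.snd = ((gbl g 0).drop (1 + k)).take ((i : ℕ) - (1 + k)) := by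
      rw [hB, List.map_take, List.map_drop, hMs]
    have h2 : bk g 0 k 1 = (((gbl g 0).drop (1 + k)).take ((i : ℕ) - (1 + k))).take k := by
      unfold bk
      rw [List.take_take, one_mul, Nat.min_eq_left (by omega)]
    rw [h1, h2]
    exact List.take_sublist _ _
  have hBc : (B.map (cj c)).map Prod.snd = (B.map Prod.snd).map (MulAut.conj c).toMonoidHom := by
    rw [List.map_map, List.map_map]
    rfl
  have hLs : (A ++ (q :: (B.map (cj c) ++ C))).map Prod.snd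
      = A.map Prod.snd ++ (q.2 :: ((B.map (cj c)).map Prod.snd ++ C.map Prod.snd)) := by
    rw [List.map_append, List.map_cons, List.map_append]
  have hx0 : ∀ x ∈ Ds (⊤ : Subgroup (F g 0)) (bk g 0 k 0),
      x ∈ Ds (⊤ : Subgroup (F g 0)) (A.map Prod.snd) := fun x hx => hD2 _ _ hb0 hx
  have he1 : ∀ a ∈ Ds (⊤ : Subgroup (F g 0)) (bk g 0 k 1),
      c * a * c⁻¹ ∈ Ds (⊤ : Subgroup (F g 0)) ((B.map (cj c)).map Prod.snd) := by
    intro a ha
    rw [hBc, hD3]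
    exact ⟨a, hD2 _ _ hb1 ha, rfl⟩
  have hq1 : q.2 ∈ Ds (⊤ : Subgroup (F g 0)) [q.2] := Eri_sgl q.2
  -- products of the letters of the new list
  have hP1 : ∀ x ∈ Ds (⊤ : Subgroup (F g 0)) (bk g 0 k 0), ∀ a ∈ Ds (⊤ : Subgroup (F g 0)) (bk g 0 k 1),
      (c * a * c⁻¹) * (q.2 * x) ∈ Ds (⊤ : Subgroup (F g 0))
        ((A ++ (q :: (B.map (cj c) ++ C))).map Prod.snd) := by
    intro x hx a ha
    have h1 := hD1 _ _ _ _ (hD1 _ _ _ _ (hx0 x hx) hq1) (he1 a ha)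
    refine hD2 _ _ ?_ h1
    rw [hLs, List.append_assoc]
    refine List.Sublist.append (List.Sublist.refl _) ?_
    rw [List.singleton_append]
    exact (List.sublist_append_left _ _).cons_cons _
  have hP2 : ∀ x ∈ Ds (⊤ : Subgroup (F g 0)) (bk g 0 k 0), ∀ a ∈ Ds (⊤ : Subgroup (F g 0)) (bk g 0 k 1),
      (c * a * c⁻¹) * x ∈ Ds (⊤ : Subgroup (F g 0))
        ((A ++ (q :: (B.map (cj c) ++ C))).map Prod.snd) := by
    intro x hx a ha
    have h1 := hD1 _ _ _ _ (hx0 x hx) (he1 a ha)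
    refine hD2 _ _ ?_ h1
    rw [hLs]
    refine List.Sublist.append (List.Sublist.refl _) ?_
    exact (List.sublist_append_left _ _).trans (List.sublist_cons_self _ _)
  have hLM : LG (lst (MonoidHom.id (F g 0)) 0 g) (A ++ (q :: (B.map (cj c) ++ C))) := by
    rw [← hM]; exact hL
  apply hT5
  rintro t ⟨x, hx, hxt⟩
  obtain ⟨a, ha, haK⟩ := hJ 1 (by omega) (c⁻¹ * (q.2 * x)) c⁻¹
  have e1 : (c⁻¹)⁻¹ * (a * (c⁻¹ * (q.2 * x))) = (c * a * c⁻¹) * (q.2 * x) := by group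
  rw [e1] at haK
  have h1 : (c * a * c⁻¹) * (q.2 * x) ∈ Lg K := hT6 _ hLM _ (hP1 x hx a ha) haK
  obtain ⟨x', hx', hx'K⟩ := hJ 0 (by omega) 1 (c * a * c⁻¹)⁻¹
  rw [mul_one, inv_inv] at hx'K
  have h2 : (c * a * c⁻¹) * x' ∈ Lg K := hT6 _ hLM _ (hP2 x' hx' a ha) hx'K
  refine ⟨x', hx', ?_⟩
  have e2 : x'⁻¹ * (q.2 * t)
      = ((c * a * c⁻¹) * x')⁻¹ * (((c * a * c⁻¹) * (q.2 * x)) * (x⁻¹ * t)) := by group
  rw [e2]
  exact (Lg K).mul_mem ((Lg K).inv_mem h2) ((Lg K).mul_mem h1 hxt)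

private theorem er : Tb → Pool.Agent.PWE.St_Dsp → Er := by
  intro hTbs hDsp g k K hk hg hJ i hi
  obtain ⟨b1, -, -, -, -, b6, -⟩ := PWH.bBas
  have h1 : (gb i : F g 0) ∈ EG K k :=
    Eri_key hTbs hDsp K hk hg hJ i hi (ga i, gb i) (b1 _)
  have h2 : (gb i * ga i * (gb i)⁻¹ : F g 0) ∈ EG K k :=
    Eri_key hTbs hDsp K hk hg hJ i hi (rt (ga i, gb i)) (b6 _)
  refine ⟨?_, h1⟩
  have h3 := (EG K k).mul_mem ((EG K k).mul_mem ((EG K k).inv_mem h1) h2) h1
  have e : (gb i : F g 0)⁻¹ * (gb i * ga i * (gb i)⁻¹) * gb i = ga i := by group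
  rwa [e] at h3


private theorem em_key {g k : ℕ} (hTbs : Tb) (hDsp : Pool.Agent.PWE.St_Dsp) (K : Subgroup (F g 0))
    (hk : 1 ≤ k) (hg : 1 + 3 * k ≤ g) (hJ : ∀ t, t < 3 → Jf K (bk g 0 k t)) (i : Fin g)
    (hi1 : 1 + k ≤ (i : ℕ)) (hi2 : (i : ℕ) < 1 + 2 * k) (q : F g 0 × F g 0)
    (hq : LG [(ga i, gb i)] [q]) : q.2 ∈ EG K k := by
  obtain ⟨-, -, hT3, -, hT5, hT6⟩ := hTbs K hk hg hJ
  obtain ⟨hD1, hD2, -⟩ := hDsp (H := F g 0)
  obtain ⟨-, -, -, b4, -, -, -⟩ := PWH.bBas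
  obtain ⟨M, hM⟩ : ∃ M, M = lst (MonoidHom.id (F g 0)) 0 g := ⟨_, rfl⟩
  obtain ⟨A, hA⟩ : ∃ A, A = M.take (i : ℕ) := ⟨_, rfl⟩
  obtain ⟨C, hC⟩ : ∃ C, C = M.drop ((i : ℕ) + 1) := ⟨_, rfl⟩
  have hMl : M.length = g := by rw [hM, Eri_len]
  have hiM : (i : ℕ) < M.length := by rw [hMl]; exact i.2
  have hMi : M[(i : ℕ)] = (ga i, gb i) := by
    subst hM
    exact Eri_get g i hiM
  have hMeq : M = A ++ (ga i, gb i) :: C := by
    have h : M = M.take (i : ℕ) ++ M.drop (i : ℕ) := (List.take_append_drop _ _).symm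
    rw [List.drop_eq_getElem_cons hiM, hMi, ← hA, ← hC] at h
    exact h
  have hL : LG (lst (MonoidHom.id (F g 0)) 0 g) (A ++ (q :: C)) := by
    have h := b4 A [(ga i, gb i)] [q] C hq
    rw [List.append_assoc, List.append_assoc, List.singleton_append, List.singleton_append, ← hMeq,
      hM] at h
    exact h
  have hMs : M.map Prod.snd = gbl g 0 := by rw [hM, Eri_lst]
  have hb0 : List.Sublist (bk g 0 k 0) (A.map Prod.snd) := by
    rw [hA, List.map_take, hMs]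
    unfold bk
    rw [List.take_drop]
    refine (List.drop_sublist _ _).trans ?_
    have h5 : (gbl g 0).take (1 + 0 * k + k) = ((gbl g 0).take i).take (1 + 0 * k + k) := by
      rw [List.take_take, min_eq_left (by omega)]
    rw [h5]
    exact List.take_sublist _ _
  have hb2 : List.Sublist (bk g 0 k 2) (C.map Prod.snd) := by
    rw [hC, List.map_drop, hMs]
    unfold bk
    refine (List.take_sublist _ _).trans ?_
    have h5 : (gbl g 0).drop (1 + 2 * k) = ((gbl g 0).drop (i + 1)).drop (1 + 2 * k - (i + 1)) := by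
      rw [List.drop_drop]
      congr 1
      omega
    rw [h5]
    exact List.drop_sublist _ _
  have hLs : (A ++ (q :: C)).map Prod.snd = A.map Prod.snd ++ ([q.2] ++ C.map Prod.snd) := by
    rw [List.map_append, List.map_cons, List.singleton_append]
  apply hT5
  rintro t ⟨x, hx, hxt⟩
  obtain ⟨a, ha, haK⟩ := hJ 2 (by norm_num) (q.2 * x) 1
  rw [inv_one, one_mul] at haK
  have h1 : a * (q.2 * x) ∈ Lg K := by
    refine hT6 _ hL _ ?_ haK
    rw [hLs, ← mul_assoc]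
    exact hD1 _ _ _ _ (hD2 _ _ hb0 hx) (hD1 _ _ _ _ (Eri_sgl q.2) (hD2 _ _ hb2 ha))
  obtain ⟨x', hx', hl'⟩ : ∃ x' ∈ Ds (⊤ : Subgroup (F g 0)) (bk g 0 k 0), x'⁻¹ * a⁻¹ ∈ Lg K :=
    hT3 2 (by norm_num) (by norm_num) a ha
  refine ⟨x', hx', ?_⟩
  have h6 : x'⁻¹ * (q.2 * t) = (x'⁻¹ * a⁻¹) * (a * (q.2 * x)) * (x⁻¹ * t) := by group
  rw [h6]
  exact (Lg K).mul_mem ((Lg K).mul_mem hl' h1) hxt

private theorem em {g k : ℕ} (hTbs : Tb) (hDsp : Pool.Agent.PWE.St_Dsp) (K : Subgroup (F g 0))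
    (hk : 1 ≤ k) (hg : 1 + 3 * k ≤ g) (hJ : ∀ t, t < 3 → Jf K (bk g 0 k t)) (i : Fin g)
    (hi1 : 1 + k ≤ (i : ℕ)) (hi2 : (i : ℕ) < 1 + 2 * k) : ga i ∈ EG K k ∧ gb i ∈ EG K k := by
  obtain ⟨b1, -, -, -, -, b6, -⟩ := PWH.bBas
  have h1 : (gb i : F g 0) ∈ EG K k :=
    em_key hTbs hDsp K hk hg hJ i hi1 hi2 (ga i, gb i) (b1 _)
  have h2 : (gb i * ga i * (gb i)⁻¹ : F g 0) ∈ EG K k :=
    em_key hTbs hDsp K hk hg hJ i hi1 hi2 (rt (ga i, gb i)) (b6 _)
  refine ⟨?_, h1⟩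
  have h3 := (EG K k).mul_mem ((EG K k).mul_mem ((EG K k).inv_mem h1) h2) h1
  have e : (gb i : F g 0)⁻¹ * (gb i * ga i * (gb i)⁻¹) * gb i = ga i := by group
  rwa [e] at h3

private theorem Ds_one {G : Type} [Group G] (l : List G) : (1 : G) ∈ Ds (⊤ : Subgroup G) l := by
  induction l with
  | nil => exact Finset.mem_singleton_self _
  | cons x l ih =>
    have h : Ds (⊤ : Subgroup G) (x :: l) =
        Ds (⊤ : Subgroup G) l ∪ (Ds (⊤ : Subgroup G) l).image (fun d => d * x) :=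
      if_pos (Subgroup.mem_top x)
    rw [h]
    exact Finset.mem_union_left _ ih

theorem thm_Bcg : St_Bcg := by
  intro g k K hk hg hJ x hx
  have hDsp : Pool.Agent.PWE.St_Dsp := Pool.Agent.PWE.thm_Dsp
  have hTbs : Tb := tb hDsp
  obtain ⟨-, t2, -, -, -, -⟩ := hTbs K hk hg hJ
  have m2 : ∀ m : ℕ, ∀ i : Fin g, 1 + k ≤ (i : ℕ) + m → ga i ∈ EG K k ∧ gb i ∈ EG K k := by
    intro m
    induction m with
    | zero =>
      intro i hi
      by_cases h2 : (i : ℕ) < 1 + 2 * k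
      · exact em hTbs hDsp K hk hg hJ i (by omega) h2
      · exact er hTbs hDsp K hk hg hJ i (by omega)
    | succ m ih =>
      intro i hi
      by_cases h1 : 1 + k ≤ (i : ℕ)
      · by_cases h2 : (i : ℕ) < 1 + 2 * k
        · exact em hTbs hDsp K hk hg hJ i h1 h2
        · exact er hTbs hDsp K hk hg hJ i (by omega)
      · exact el hTbs hDsp K hk hg hJ i (by omega) (fun j h3 _ => ih j (by omega))
  have m3 : ∀ i : Fin g, ga i ∈ EG K k ∧ gb i ∈ EG K k := fun i => m2 (1 + k) i (by omega)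
  have m5 : EG K k = ⊤ := eq_top_of_gens (fun i => (m3 i).1) (fun i => (m3 i).2)
    (fun j => j.elim0)
  have n1 : (1 : F g 0) ∈ TG K k := by
    refine ⟨1, Ds_one _, ?_⟩
    rw [inv_one, one_mul]
    exact (Lg K).one_mem
  have n2 : x ∈ TG K k := by
    have h : x ∈ EG K k := by
      rw [m5]
      exact Subgroup.mem_top x
    have h1 := (h 1).2 n1
    rwa [mul_one] at h1
  have n3 := t2 1 n1 x n2 (by rw [inv_one, one_mul]; exact hx)
  rwa [inv_one, one_mul] at n3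

end Pool.Agent.LGU
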