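import Pool.Agent.LGU.St
import Pool.Agent.PWE.All
import Pool.Agent.PWG.Reb

/-!
# Campaign LGU, module Blg: three joining blocks, with moves (helper69)
-/

set_option autoImplicit false

open scoped BigOperators

namespace Pool.Agent.LGU

open Pool.Agent.PW Pool.Agent.PWM Pool.Agent.PWB Pool.Agent.PWX Pool.Agent.PWF Pool.Agent.PWL
  Pool.Agent.PWY Pool.Agent.PWE Pool.Agent.PWG Pool.Agent.ARH
open SpQ (Hd WStep WReach WExt Good bd cj1)
open scoped Classical

private theorem Blg_len {Q : Type} [Group Q] {g n : ℕ} (ρ : F g n →* Q) :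
    (lst ρ 0 g).length = g := by
  unfold lst
  rw [List.length_map, List.length_range]

private theorem Blg_map {P Q : Type} [Group P] [Group Q] {g n : ℕ} (ρ : F g n →* P)
    (f : P →* Q) : (lst ρ 0 g).map (fun p => (f p.1, f p.2)) = lst (f.comp ρ) 0 g := by
  apply List.ext_getElem
  · simp [lst]
  · intro i h1 h2
    have hi : i < g := by
      simpa [lst] using h1
    simp [lst, vls, hi]

private theorem Blg_lst {Q : Type} [Group Q] {g n : ℕ} (ρ : F g n →* Q) :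
    (lst ρ 0 g).map Prod.snd = (gbl g n).map ρ := by
  apply List.ext_getElem
  · simp [lst, gbl]
  · intro i h1 h2
    have hi : i < g := by
      simpa [lst] using h1
    simp [lst, gbl, vls, hi]

private theorem Blg_block {Q : Type} [Group Q] {g n : ℕ} (ρ : F g n →* Q) (a k : ℕ) :
    (((lst ρ 0 g).drop a).take k).map Prod.snd = (((gbl g n).drop a).take k).map ρ := by
  rw [List.map_take, List.map_drop, Blg_lst, List.map_take, List.map_drop]

private theorem Blg_Gn {Q : Type} [Group Q] {g : ℕ} (ρ : F g 0 →* Q) (x : F g 0) :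
    ρ x ∈ Gn (lst ρ 0 g) := by
  have h : (Gn (lst ρ 0 g)).comap ρ = ⊤ := by
    have hv : ∀ i : Fin g, (ρ (ga i), ρ (gb i)) ∈ lst ρ 0 g := by
      intro i
      unfold lst
      rw [List.mem_map]
      refine ⟨(i : ℕ), List.mem_range.2 i.2, ?_⟩
      simp [vls, i.2]
    refine eq_top_of_gens ?_ ?_ ?_
    · intro i
      rw [Subgroup.mem_comap]
      exact Subgroup.subset_closure ⟨_, hv i, Or.inl rfl⟩
    · intro i
      rw [Subgroup.mem_comap]
      exact Subgroup.subset_closure ⟨_, hv i, Or.inr rfl⟩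
    · intro j
      exact j.elim0
  have h1 : x ∈ (Gn (lst ρ 0 g)).comap ρ := by
    rw [h]
    exact Subgroup.mem_top x
  exact h1

/-- **(Blg)** Three blocks whose products join all pairs of cosets, with moves. -/
theorem thm_Blg : St_Blg := by
  intro hLup g K hK hg
  have hfin : K.FiniteIndex := ⟨hK⟩
  have hfinQ : Finite (F g 0 ⧸ K) := Subgroup.finite_quotient_of_finiteIndex
  have hft : Fintype (F g 0 ⧸ K) := Fintype.ofFinite _
  set l := Nat.log 2 K.index + 1 with hl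
  have hl1 : 1 ≤ l := by omega
  have hcard : Fintype.card (F g 0 ⧸ K) = K.index := by
    rw [← Nat.card_eq_fintype_card]
    rfl
  have hdl : Fintype.card (F g 0 ⧸ K) < 2 ^ l := by
    rw [hcard]
    exact Nat.lt_pow_succ_log_self (by norm_num) _
  have hftG : Fintype (Equiv.Perm (F g 0 ⧸ K)) := Fintype.ofFinite _
  have hT : Tr (F g 0 ⧸ K) (Gn (lst (pK K) 0 g)) := by
    intro w w'
    obtain ⟨x, hx⟩ := MulAction.exists_smul_eq (F g 0) w w'
    exact ⟨pK K x, Blg_Gn (pK K) x, hx⟩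
  obtain ⟨L, hL, hJ⟩ := PWE.thm_Pos PWE.thm_Gnv PWE.thm_Dch PWE.thm_Mrg PWE.thm_Orb PWE.thm_Shf
    PWE.thm_Trb PWE.thm_Prl PWE.thm_Ntw PWE.thm_Dec PWE.thm_Gpl PWE.thm_Lta PWE.thm_Lwr
    PWE.thm_Ctr PWE.thm_Num (lst (pK K) 0 g) l hl1 hdl (by rw [Blg_len]; exact hg) hT
  have hidm : (lst (MonoidHom.id (F g 0)) 0 g).map (fun p => (pK K p.1, pK K p.2)) =
      lst (pK K) 0 g := by
    rw [Blg_map, MonoidHom.comp_id]
  obtain ⟨L', hL', hLm⟩ := hLup (pK K) (lst (MonoidHom.id (F g 0)) 0 g) L (by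
    rw [hidm]
    exact hL)
  obtain ⟨φ, hφ, hφL, -, -⟩ := PWG.thm_Reb (MonoidHom.id (F g 0)) L' (by omega) hL'
  rw [MonoidHom.id_comp] at hφL
  have hLφ : L = lst ((pK K).comp (MulEquiv.toMonoidHom φ)) 0 g := by
    rw [← hLm, ← hφL, Blg_map]
  obtain ⟨-, -, hD3⟩ := PWE.thm_Dsp (H := F g 0)
  refine ⟨64 * l, φ, by omega, by omega, hφ, ?_, ?_⟩
  · rw [hφL]
    exact hL'
  intro t ht w w'
  obtain ⟨d, hd, hdw⟩ := hJ t ht ((φ w : F g 0) : F g 0 ⧸ K) ((φ w' : F g 0) : F g 0 ⧸ K)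
  rw [hLφ, Blg_block, hD3] at hd
  obtain ⟨x, hx, rfl⟩ := hd
  refine ⟨x, hx, ?_⟩
  have h1 : ((φ x * φ w : F g 0) : F g 0 ⧸ K) = ((φ w' : F g 0) : F g 0 ⧸ K) := hdw
  rw [QuotientGroup.eq] at h1
  have h2 := K.inv_mem h1
  rw [Subgroup.mem_comap]
  show φ (w'⁻¹ * (x * w)) ∈ K
  have h3 : φ (w'⁻¹ * (x * w)) = ((φ x * φ w)⁻¹ * φ w')⁻¹ := by
    rw [map_mul, map_mul, map_inv]
    group
  rw [h3]
  exact h2

end Pool.Agent.LGU
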