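import Pool.Agent.LGU.St
import Pool.Agent.PWE.Dsp

/-!
# Campaign LGU, module Bs2: letters generate
-/

set_option autoImplicit false

namespace Pool.Agent.LGU

open Pool.Agent.PW Pool.Agent.PWM Pool.Agent.PWB Pool.Agent.PWX Pool.Agent.PWF Pool.Agent.PWL
  Pool.Agent.PWY Pool.Agent.PWE Pool.Agent.PWG Pool.Agent.ARH
open SpQ (Hd WStep WReach WExt Good bd cj1)
open scoped Classical

/-- The homomorphism with the given values. -/
private def bsU {Γ : Type} [Group Γ] (J : List (Hd Γ 1)) : F J.length 0 →* Γ :=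
  FreeGroup.lift fun x => match x with
    | Gen.a i => (J.get i).1.1
    | Gen.b i => (J.get i).1.2
    | Gen.c _ => 1

private theorem bsU_a {Γ : Type} [Group Γ] (J : List (Hd Γ 1)) (i : Fin J.length) :
    bsU J (ga i) = (J.get i).1.1 := by
  unfold bsU ga
  rw [FreeGroup.lift_apply_of]

private theorem bsU_b {Γ : Type} [Group Γ] (J : List (Hd Γ 1)) (i : Fin J.length) :
    bsU J (gb i) = (J.get i).1.2 := by
  unfold bsU gb
  rw [FreeGroup.lift_apply_of]

private theorem bs_lst {Γ : Type} [Group Γ] (J : List (Hd Γ 1)) :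
    (lst (MonoidHom.id (F J.length 0)) 0 J.length).map (fun p => (bsU J p.1, bsU J p.2)) =
      pr (MonoidHom.id Γ) J := by
  unfold lst pr
  refine List.ext_getElem (by simp) ?_
  intro i h1 h2
  have hi : i < J.length := by simpa using h2
  rw [List.getElem_map, List.getElem_map, List.getElem_map, List.getElem_range]
  have h3 : 0 + i < J.length := by omega
  unfold vls
  rw [dif_pos h3]
  change (bsU J (ga ⟨0 + i, h3⟩), bsU J (gb ⟨0 + i, h3⟩)) = (J[i].1.1, J[i].1.2)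
  rw [bsU_a, bsU_b]
  simp only [List.get_eq_getElem, zero_add]

private theorem bs_E {Γ : Type} [Group Γ] (J : List (Hd Γ 1)) : SpQ.E J ≤ (bsU J).range := by
  unfold SpQ.E
  rw [Subgroup.closure_le]
  rintro z ⟨h, hh, hz⟩
  obtain ⟨i, hi, rfl⟩ := List.getElem_of_mem hh
  rcases hz with rfl | rfl
  · exact ⟨ga ⟨i, hi⟩, bsU_a J ⟨i, hi⟩⟩
  · exact ⟨gb ⟨i, hi⟩, bsU_b J ⟨i, hi⟩⟩

theorem thm_Bs2 : St_Bs2 := by
  intro hLgw hNat hLup hFcd hBlg hBcg hBsg Γ _ Λ _ ℓ J hΛ hJ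
  obtain ⟨K, hK⟩ : ∃ K : Subgroup (F J.length 0), K = Λ.comap (bsU J) := ⟨_, rfl⟩
  have hKi : K.index = Λ.relIndex (bsU J).range := by
    rw [hK, Subgroup.index_comap]
  have hΛ0 : Λ.index ≠ 0 := Subgroup.FiniteIndex.index_ne_zero
  have hrel : Λ.relIndex (bsU J).range ≠ 0 := fun h =>
    hΛ0 (Subgroup.index_eq_zero_of_relIndex_eq_zero h)
  have hle : K.index ≤ 2 ^ ℓ := by
    rw [hKi]
    refine le_trans ?_ hΛ
    rw [← Subgroup.relIndex_top_right]
    refine Subgroup.relIndex_le_of_le_right le_top ?_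
    rw [Subgroup.relIndex_top_right]
    exact hΛ0
  have hlog : Nat.log 2 K.index ≤ ℓ := by
    have h1 := Nat.log_mono_right (b := 2) hle
    rwa [Nat.log_pow (by norm_num)] at h1
  have hg : 340 * (Nat.log 2 K.index + 1) ≤ J.length := by omega
  have hmain := hBsg hLup hNat hBlg hBcg K (by rw [hKi]; exact hrel) hg
  have hLg : Lg K ≤ (Subgroup.closure {y | y ∈ Λ ∧ y ∈ SpQ.fc J (-1)}).comap (bsU J) := by
    unfold Lg
    rw [Subgroup.closure_le]
    rintro x ⟨hxK, L', hL', hx⟩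
    rw [SetLike.mem_coe, Subgroup.mem_comap]
    have h1 := hNat (bsU J) _ _ hL'
    rw [bs_lst] at h1
    have h2 : bsU J x ∈ Ds (⊤ : Subgroup Γ)
        ((L'.map fun p => (bsU J p.1, bsU J p.2)).map Prod.snd) := by
      have h3 := (thm_Dsp.2.2 (bsU J) (L'.map Prod.snd) (bsU J x)).2 ⟨x, hx, rfl⟩
      rw [List.map_map] at h3 ⊢
      exact h3
    have hxΛ : bsU J x ∈ Λ := by
      rw [hK] at hxK
      exact hxK
    rcases hFcd hLgw J _ h1 _ h2 with h4 | h4
    · rw [h4]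
      exact Subgroup.one_mem _
    · have h5 : (bsU J x)⁻¹ ∈ Subgroup.closure {y | y ∈ Λ ∧ y ∈ SpQ.fc J (-1)} :=
        Subgroup.subset_closure ⟨Λ.inv_mem hxΛ, h4⟩
      exact (Subgroup.inv_mem_iff _).1 h5
  rintro y ⟨hyΛ, hyE⟩
  obtain ⟨x, rfl⟩ := bs_E J hyE
  have hxK : x ∈ K := by
    rw [hK]
    exact hyΛ
  exact hLg (hmain x hxK)

end Pool.Agent.LGU
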