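import Pool.Agent.LGU.St
import Pool.Agent.PWE.Dsp

/-!
# LGU Bsg: letters of reached lists generate the subgroups of small index
-/

set_option autoImplicit false

namespace Pool.Agent.LGU

open Pool.Agent.PW Pool.Agent.PWM Pool.Agent.PWB Pool.Agent.PWX Pool.Agent.PWF Pool.Agent.PWL
  Pool.Agent.PWY Pool.Agent.PWE Pool.Agent.PWG Pool.Agent.ARH
open SpQ (Hd WStep WReach WExt Good bd cj1)
open scoped Classical

private theorem Bsg_trans {Q : Type} [Group Q] {l l' l'' : List (Q × Q)} (h1 : LG l l')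
    (h2 : LG l' l'') : LG l l'' := by
  refine ⟨h1.1.trans h2.1, fun m x hx => ?_⟩
  obtain ⟨y, hy, hy'⟩ := h1.2 m x hx
  obtain ⟨z, hz, hz'⟩ := h2.2 m y hy'
  rw [← h1.1] at hz
  exact ⟨z, hy.trans hz, hz'⟩

private theorem Bsg_lst {g : ℕ} (φ : F g 0 →* F g 0) :
    ((lst (MonoidHom.id (F g 0)) 0 g).map fun p => (φ p.1, φ p.2)) = lst φ 0 g := by
  unfold lst
  rw [List.map_map]
  apply List.map_congr_left
  intro i _
  simp only [Function.comp_apply, vls]
  split_ifs with h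
  · rfl
  · simp only [map_one]

theorem thm_Bsg : St_Bsg := by
  intro hLup hNat hBlg hBcg g K hK hg x hx
  obtain ⟨k, φ, hk1, hk3, -, hφL, hJ⟩ := hBlg hLup K hK hg
  have hgen := hBcg (K.comap φ.toMonoidHom) hk1 hk3 hJ
  have hSg : ∀ z : F g 0, Sg z → Sg (φ z) := by
    rintro z ⟨L', hL', hz⟩
    refine ⟨L'.map fun p => ((MulEquiv.toMonoidHom φ) p.1, (MulEquiv.toMonoidHom φ) p.2), ?_, ?_⟩
    · have h1 := hNat (MulEquiv.toMonoidHom φ) _ _ hL'
      rw [Bsg_lst] at h1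
      exact Bsg_trans hφL h1
    · have h2 : (L'.map fun p => ((MulEquiv.toMonoidHom φ) p.1,
          (MulEquiv.toMonoidHom φ) p.2)).map Prod.snd =
          (L'.map Prod.snd).map (MulEquiv.toMonoidHom φ) := by
        rw [List.map_map, List.map_map]
        rfl
      rw [h2, (thm_Dsp (H := F g 0)).2.2 (MulEquiv.toMonoidHom φ)]
      exact ⟨z, hz, rfl⟩
  have hle : (Lg (K.comap φ.toMonoidHom)).map φ.toMonoidHom ≤ Lg K := by
    unfold Lg
    rw [MonoidHom.map_closure, Subgroup.closure_le]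
    rintro _ ⟨z, ⟨hz1, hz2⟩, rfl⟩
    exact Subgroup.subset_closure ⟨hz1, hSg z hz2⟩
  have hy : φ (φ.symm x) = x := φ.apply_symm_apply x
  have hyK : φ.symm x ∈ K.comap φ.toMonoidHom := by
    rw [Subgroup.mem_comap]
    show φ (φ.symm x) ∈ K
    rw [hy]
    exact hx
  have h3 := hle (Subgroup.mem_map_of_mem φ.toMonoidHom (hgen _ hyK))
  have h4 : φ.toMonoidHom (φ.symm x) = x := hy
  rwa [h4] at h3

end Pool.Agent.LGU
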