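import Pool.Agent.LGU.St

/-!
# LGU / Fcd: products of letters are letters (helper1)
-/

set_option autoImplicit false

namespace Pool.Agent.LGU

open Pool.Agent.PW Pool.Agent.PWM Pool.Agent.PWB Pool.Agent.PWX Pool.Agent.PWF Pool.Agent.PWL
  Pool.Agent.PWY Pool.Agent.PWE Pool.Agent.PWG Pool.Agent.ARH
open SpQ (Hd WStep WReach WExt Good bd cj1)
open scoped Classical

private theorem fcd_ds {G : Type} [Group G] (x y : G) (l : List G) (h : y ∈ Ds ⊤ (x :: l)) :
    y ∈ Ds ⊤ l ∨ ∃ d ∈ Ds ⊤ l, d * x = y := by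
  rw [Ds, if_pos (Subgroup.mem_top _)] at h
  rcases Finset.mem_union.1 h with h | h
  · exact Or.inl h
  · exact Or.inr (Finset.mem_image.1 h)

/-- the rotated first handle, moved to the right end -/
private theorem fcd_rot {Γ : Type} [Group Γ] (h : Hd Γ 1) (B : List (Hd Γ 1)) :
    h.1.2⁻¹ ∈ SpQ.fc (h :: B) (-1) := by
  obtain ⟨⟨x, y⟩, ⟨p, q⟩⟩ := h
  have h1 : WReach (((x, y), (p, q)) :: B) (((y⁻¹, y * x * y⁻¹), (-q, p)) :: B) :=
    WReach.of_step (WStep.rot [] B x y p q)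
  have h2 := SpQ.move_right B (((y⁻¹, y * x * y⁻¹), (-q, p)) : Hd Γ 1)
  refine ⟨y * x * y⁻¹, p, SpQ.cj (bd (((y⁻¹, y * x * y⁻¹), (-q, p)) : Hd Γ 1))⁻¹ B, ?_⟩
  have e : (-1 : ZMod 1) = -q := Subsingleton.elim _ _
  rw [e]
  exact h1.trans h2

private theorem fcd_key (hLgw : St_Lgw) {Γ : Type} [Group Γ] : ∀ (T : List (Hd Γ 1)) (y : Γ),
    y ∈ Ds (⊤ : Subgroup Γ) ((pr (MonoidHom.id Γ) T).map Prod.snd) → y = 1 ∨
      y⁻¹ ∈ SpQ.fc T (-1) := by
  intro T
  induction T with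
  | nil =>
    intro y hy
    left
    simpa [pr, Ds] using hy
  | cons q T ih =>
    intro y hy
    have e : pr (MonoidHom.id Γ) (q :: T) = q.1 :: pr (MonoidHom.id Γ) T := rfl
    rw [e, List.map_cons] at hy
    rcases fcd_ds _ _ _ hy with h | ⟨d, hd, rfl⟩
    · rcases ih y h with h1 | h1
      · exact Or.inl h1
      · exact Or.inr (SpQ.fc_mono (WExt.drop_left [q] T) _ h1)
    · right
      obtain ⟨p', P', hL, hp⟩ := eCub eFrt ⊤ (pr (MonoidHom.id Γ) T) [] q.1 d hd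
      rw [List.nil_append, ← e] at hL
      obtain ⟨B', hB, hpr⟩ := hLgw (MonoidHom.id Γ) (q :: T) _ hL
      cases B' with
      | nil => simp [pr] at hpr
      | cons h B'' =>
        have e2 : pr (MonoidHom.id Γ) (h :: B'') = h.1 :: pr (MonoidHom.id Γ) B'' := rfl
        rw [e2] at hpr
        have h3 := (List.cons.inj hpr).1
        rw [← hp, ← h3]
        exact SpQ.fc_mono (WExt.of_reach hB) _ (fcd_rot h B'')

theorem thm_Fcd : St_Fcd := by
  intro hLgw Γ _ J L' hL y hy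
  obtain ⟨J', hJ, hpr⟩ := hLgw (MonoidHom.id Γ) J L' hL
  rw [← hpr] at hy
  rcases fcd_key hLgw J' y hy with h | h
  · exact Or.inl h
  · exact Or.inr (SpQ.fc_mono (WExt.of_reach hJ) _ h)

end Pool.Agent.LGU
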