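import Pool.Agent.LGU.St
import Pool.Agent.PWE.Gnv
import Pool.Agent.PWE.Dch
import Pool.Agent.PWE.Mrg

/-!
# The law of the handles which leave (`St_Law`)

Helper33, for MP_0707f5_ag (plan of helper1).
-/

set_option autoImplicit false

open scoped BigOperators

namespace Pool.Agent.LGU

open Pool.Agent.PW Pool.Agent.PWM Pool.Agent.PWB Pool.Agent.PWX Pool.Agent.PWF Pool.Agent.PWL
  Pool.Agent.PWY Pool.Agent.PWE Pool.Agent.PWG Pool.Agent.ARH
open scoped Classical

private theorem mvt_true {G : Type} [Group G] : ∀ (a : ℕ) (L : List (G × G)), a = L.length →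
    (mvt (List.replicate a true) L).1 = []
  | 0, L, h => by
    have h1 : L = [] := List.length_eq_zero_iff.1 h.symm
    subst h1
    rfl
  | a + 1, [], h => by simp at h
  | a + 1, p :: T, h => by
    rw [List.replicate_succ, mvt, mvt_true a T (by simpa using h)]
    rfl

theorem thm_Law : St_Law := by
  intro hMvf G _ _ Ω _ _ M a m c ham
  obtain ⟨hv1, -, -, hv4⟩ := hMvf
  set bs : List Bool := List.replicate a true ++
    (List.ofFn c ++ List.replicate (M.length - a - m) true) with hbs
  have hbl : bs.length = M.length := by
    rw [hbs, List.length_append, List.length_append, List.length_replicate, List.length_ofFn,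
      List.length_replicate]
    omega
  have hcnt : bs.count false = (List.ofFn c).count false := by
    rw [hbs, List.count_append, List.count_append, List.count_replicate, List.count_replicate]
    simp
  have key : ∀ L ∈ cls M, ∃ u : G, (mvt bs L).1 = (lv a m c L).map (cj u) := by
    intro L hL
    have hLl : L.length = M.length := len_cls hL
    have hsplit : L = L.take a ++ ((L.drop a).take m ++ (L.drop a).drop m) := by
      rw [List.take_append_drop, List.take_append_drop]
    have ht : (L.take a).length = a := by
      rw [List.length_take]
      omega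
    have hmid : ((L.drop a).take m).length = m := by
      rw [List.length_take, List.length_drop]
      omega
    obtain ⟨u, hu, -⟩ := hv1 (List.replicate a true)
      (List.ofFn c ++ List.replicate (M.length - a - m) true) (L.take a)
      ((L.drop a).take m ++ (L.drop a).drop m) (by rw [ht, List.length_replicate])
    obtain ⟨u', hu', -⟩ := hv1 (List.ofFn c) (List.replicate (M.length - a - m) true)
      ((L.drop a).take m) ((L.drop a).drop m) (by rw [hmid, List.length_ofFn])
    refine ⟨u, ?_⟩
    conv_lhs => rw [hsplit]
    rw [hbs, hu, mvt_true a _ ht.symm, hu', mvt_true (M.length - a - m) _ (by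
      rw [List.length_drop, List.length_drop]
      omega)]
    simp only [List.map_nil, List.append_nil, List.nil_append]
    rfl
  have h1 : ((cls M).filter fun L => ¬ no Ω (lv a m c L) ≤ no Ω M) =
      (cls M).filter fun L => ¬ no Ω (mvt bs L).1 ≤ no Ω M := by
    refine Finset.filter_congr fun L hL => ?_
    obtain ⟨u, hu⟩ := key L hL
    rw [hu, hv4]
  have h2 := mvt_law M bs hbl fun U => ¬ no Ω U ≤ no Ω M
  have h3 : ((cls M).filter fun L => ¬ no Ω (mvt bs L).1 ≤ no Ω M).card =
      ((cls M).filter fun L => ¬ no Ω (L.take (bs.count false)) ≤ no Ω M).card := by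
    refine Eq.trans ?_ (h2.trans ?_)
    · congr
    · congr
  rw [h1, h3, hcnt]
  have hk : (List.ofFn c).count false ≤ M.length := by
    have h2 := List.count_le_length (a := false) (l := List.ofFn c)
    rw [List.length_ofFn] at h2
    omega
  exact thm_Orb thm_Gnv thm_Dch thm_Mrg M _ hk

end Pool.Agent.LGU
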