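import Pool.Agent.LGU.St
import Pool.Agent.LGT.Brg

/-!
# LGU / Lgw: the moves of values lift to moves of handles (helper1, after helper20)
-/

set_option autoImplicit false

namespace Pool.Agent.LGU

open Pool.Agent.PW Pool.Agent.PWM Pool.Agent.PWB Pool.Agent.PWX Pool.Agent.PWF Pool.Agent.PWL
  Pool.Agent.PWY Pool.Agent.PWE Pool.Agent.PWG Pool.Agent.ARH
open SpQ (Hd WStep WReach WExt Good bd cj1)
open scoped Classical

theorem thm_Lgw (hL : St_Lup) : St_Lgw := by
  intro Γ Q _ _ f B L h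
  have e : pr f B = (SpQ.bare B).map fun p => (f p.1, f p.2) := by
    unfold pr SpQ.bare
    rw [List.map_map]
    rfl
  rw [e] at h
  obtain ⟨L', h1, h2⟩ := hL f (SpQ.bare B) L h
  obtain ⟨B', h3, h4⟩ := LGT.lg_wreach h1
  refine ⟨B', h3, ?_⟩
  rw [← h2, ← h4]
  unfold pr SpQ.bare
  rw [List.map_map]
  rfl

end Pool.Agent.LGU
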