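import Pool.Agent.LGU.St

/-!
# LGU, module Lup: the moves lift along homomorphisms
-/

set_option autoImplicit false

namespace Pool.Agent.LGU

open Pool.Agent.PW Pool.Agent.PWM Pool.Agent.PWB Pool.Agent.PWX Pool.Agent.PWF Pool.Agent.PWL
  Pool.Agent.PWY Pool.Agent.PWE Pool.Agent.PWG Pool.Agent.ARH
open SpQ (Hd WStep WReach WExt Good bd cj1)
open scoped Classical

/-- the same step at the places `m + l` of another system -/
private theorem Lup_shift {Q : Type} [Group Q] {n : ℕ} {x y : ℕ → Q × Q}
    (h : Pool.Agent.PWX.Step 0 n x y) (m : ℕ) (z : ℕ → Q × Q) (hz : ∀ i, i < n → z (m + i) = x i) :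
    ∃ w, Pool.Agent.PWX.Step m (m + n) z w ∧ ∀ i, i < n → w (m + i) = y i := by
  cases h with
  | swap l _ h2 =>
    refine ⟨_, Pool.Agent.PWX.Step.swap z (m + l) (Nat.le_add_right _ _) (by omega), ?_⟩
    intro i hi
    have e1 := hz l (by omega)
    have e2 := hz (l + 1) h2
    by_cases h4 : i = l + 1
    · subst h4
      rw [← add_assoc, Function.update_self, Function.update_self, add_assoc, e1, e2]
    · rw [Function.update_of_ne (show m + i ≠ m + l + 1 by omega), Function.update_of_ne h4]
      by_cases h5 : i = l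
      · subst h5
        rw [Function.update_self, Function.update_self, add_assoc, e2]
      · rw [Function.update_of_ne (show m + i ≠ m + l by omega), Function.update_of_ne h5, hz i hi]
  | rot l _ h2 =>
    refine ⟨_, Pool.Agent.PWX.Step.rot z (m + l) (Nat.le_add_right _ _) (by omega), ?_⟩
    intro i hi
    by_cases h5 : i = l
    · subst h5
      rw [Function.update_self, Function.update_self, hz i hi]
    · rw [Function.update_of_ne (show m + i ≠ m + l by omega), Function.update_of_ne h5, hz i hi]
  | slide l _ h2 =>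
    refine ⟨_, Pool.Agent.PWX.Step.slide z (m + l) (Nat.le_add_right _ _) (by omega), ?_⟩
    intro i hi
    have e1 := hz l (by omega)
    have e2 := hz (l + 1) h2
    by_cases h4 : i = l + 1
    · subst h4
      rw [← add_assoc, Function.update_self, Function.update_self, add_assoc, e1, e2]
    · rw [Function.update_of_ne (show m + i ≠ m + l + 1 by omega), Function.update_of_ne h4]
      by_cases h5 : i = l
      · subst h5
        rw [Function.update_self, Function.update_self, add_assoc, e1, e2]
      · rw [Function.update_of_ne (show m + i ≠ m + l by omega), Function.update_of_ne h5, hz i hi]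

private theorem Lup_go {Q : Type} [Group Q] {n : ℕ} {x y : ℕ → Q × Q} (h : Go 0 n x y) (m : ℕ)
    (z : ℕ → Q × Q) (hz : ∀ i, i < n → z (m + i) = x i) :
    ∃ w, Go m (m + n) z w ∧ ∀ i, i < n → w (m + i) = y i := by
  induction h with
  | refl => exact ⟨z, Relation.ReflTransGen.refl, hz⟩
  | tail _ hs ih =>
    obtain ⟨w, hw, hw'⟩ := ih
    obtain ⟨w', h1, h2⟩ := Lup_shift hs m w hw'
    exact ⟨w', hw.tail h1, h2⟩

/-- a homomorphism, applied to pairs -/
private def Lup_m {P Q : Type} [Group P] [Group Q] (f : P →* Q) (p : P × P) : Q × Q := (f p.1, f p.2)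

private theorem Lup_cj {P Q : Type} [Group P] [Group Q] (f : P →* Q) (u : P) (p : P × P) :
    Lup_m f (Pool.Agent.PWX.cj u p) = Pool.Agent.PWX.cj (f u) (Lup_m f p) := by
  unfold Lup_m Pool.Agent.PWX.cj
  simp only [map_mul, map_inv]

private theorem Lup_dd {P Q : Type} [Group P] [Group Q] (f : P →* Q) (p : P × P) :
    f (Pool.Agent.PWX.dd p) = Pool.Agent.PWX.dd (Lup_m f p) := by
  unfold Lup_m Pool.Agent.PWX.dd
  simp only [map_mul, map_inv]

private theorem Lup_rt {P Q : Type} [Group P] [Group Q] (f : P →* Q) (p : P × P) :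
    Lup_m f (Pool.Agent.PWX.rt p) = Pool.Agent.PWX.rt (Lup_m f p) := by
  unfold Lup_m Pool.Agent.PWX.rt
  simp only [map_mul, map_inv]

private theorem Lup_tv {P Q : Type} [Group P] [Group Q] (f : P →* Q) (p : P × P) :
    f (Pool.Agent.PWX.tv p) = Pool.Agent.PWX.tv (Lup_m f p) := by
  unfold Lup_m Pool.Agent.PWX.tv
  simp only [map_mul, map_inv]

private theorem Lup_lift {P Q : Type} [Group P] [Group Q] (f : P →* Q) {lo hi : ℕ}
    {x : ℕ → P × P} {X y : ℕ → Q × Q} (h : Pool.Agent.PWX.Step lo hi X y)
    (hX : ∀ i, Lup_m f (x i) = X i) :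
    ∃ y', Pool.Agent.PWX.Step lo hi x y' ∧ ∀ i, Lup_m f (y' i) = y i := by
  cases h with
  | swap l h1 h2 =>
    refine ⟨_, Pool.Agent.PWX.Step.swap x l h1 h2, ?_⟩
    intro i
    by_cases h4 : i = l + 1
    · subst h4
      rw [Function.update_self, Function.update_self, Lup_cj, map_inv, Lup_dd, hX, hX]
    · rw [Function.update_of_ne h4, Function.update_of_ne h4]
      by_cases h5 : i = l
      · subst h5
        rw [Function.update_self, Function.update_self, hX]
      · rw [Function.update_of_ne h5, Function.update_of_ne h5, hX]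
  | rot l h1 h2 =>
    refine ⟨_, Pool.Agent.PWX.Step.rot x l h1 h2, ?_⟩
    intro i
    by_cases h5 : i = l
    · subst h5
      rw [Function.update_self, Function.update_self, Lup_rt, hX]
    · rw [Function.update_of_ne h5, Function.update_of_ne h5, hX]
  | slide l h1 h2 =>
    refine ⟨_, Pool.Agent.PWX.Step.slide x l h1 h2, ?_⟩
    have e1 : f (x l).1 = (X l).1 := congrArg Prod.fst (hX l)
    have e2 : f (x l).2 = (X l).2 := congrArg Prod.snd (hX l)
    have e3 : f (x (l + 1)).1 = (X (l + 1)).1 := congrArg Prod.fst (hX (l + 1))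
    have e4 : f (x (l + 1)).2 = (X (l + 1)).2 := congrArg Prod.snd (hX (l + 1))
    have e5 : f (Pool.Agent.PWX.tv (x (l + 1))) = Pool.Agent.PWX.tv (X (l + 1)) := by
      rw [Lup_tv, hX]
    intro i
    by_cases h4 : i = l + 1
    · subst h4
      rw [Function.update_self, Function.update_self]
      unfold Lup_m
      simp only [map_mul, map_inv, e1, e2, e3, e4, e5]
    · rw [Function.update_of_ne h4, Function.update_of_ne h4]
      by_cases h5 : i = l
      · subst h5
        rw [Function.update_self, Function.update_self]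
        unfold Lup_m
        simp only [map_mul, map_inv, e1, e2, e5]
      · rw [Function.update_of_ne h5, Function.update_of_ne h5, hX]

private theorem Lup_liftGo {P Q : Type} [Group P] [Group Q] (f : P →* Q) {lo hi : ℕ}
    {x : ℕ → P × P} {X y : ℕ → Q × Q} (h : Go lo hi X y) (hX : ∀ i, Lup_m f (x i) = X i) :
    ∃ y', Go lo hi x y' ∧ ∀ i, Lup_m f (y' i) = y i := by
  induction h with
  | refl => exact ⟨x, Relation.ReflTransGen.refl, hX⟩
  | tail _ hs ih =>
    obtain ⟨w, hw, hw'⟩ := ih
    obtain ⟨w', h1, h2⟩ := Lup_lift f hs hw'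
    exact ⟨w', hw.tail h1, h2⟩

theorem thm_Lup : St_Lup := by
  intro P Q _ _ f L M hLM
  obtain ⟨hlen, hgo⟩ := hLM
  rw [List.length_map] at hlen
  -- the system of `L`
  let x : ℕ → P × P := fun i => L.getD i (1, 1)
  have hx : At 0 (L.map fun p => (f p.1, f p.2)) (fun i => Lup_m f (x i)) := by
    intro i hi
    rw [List.length_map] at hi
    show Lup_m f (L.getD (0 + i) (1, 1)) = _
    rw [zero_add, List.getD_eq_getElem _ _ hi, List.getElem_map]
    rfl
  obtain ⟨y, hy, hyM⟩ := hgo 0 _ hx
  rw [List.length_map, zero_add] at hy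
  obtain ⟨y', hy', hf⟩ := Lup_liftGo f hy (fun _ => rfl)
  refine ⟨(List.range L.length).map y', ⟨by rw [List.length_map, List.length_range], ?_⟩, ?_⟩
  · intro m z hz
    obtain ⟨w, hw, hw'⟩ := Lup_go hy' m z (fun i hi => by
      rw [hz i hi]
      show _ = L.getD i (1, 1)
      rw [List.getD_eq_getElem _ _ hi])
    refine ⟨w, hw, ?_⟩
    intro i hi
    rw [List.length_map, List.length_range] at hi
    rw [hw' i hi, List.getElem_map, List.getElem_range]
  · apply List.ext_getElem
    · rw [List.length_map, List.length_map, List.length_range, hlen]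
    · intro i h1 h2
      rw [List.getElem_map, List.getElem_map, List.getElem_range]
      have h3 := hf i
      have h4 := hyM i h2
      rw [zero_add] at h4
      rw [← h4, ← h3]
      rfl

end Pool.Agent.LGU
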