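import Pool.Agent.LGU.St
import Pool.Agent.PWE.Gnv
import Pool.Agent.PWE.Dch
import Pool.Agent.PWE.Mrg

/-!
# One list for all sets of places (`St_Mcl`)

Helper33, for MP_0707f5_ag (plan of helper1).
-/

set_option autoImplicit false

open scoped BigOperators

namespace Pool.Agent.LGU

open Pool.Agent.PW Pool.Agent.PWM Pool.Agent.PWB Pool.Agent.PWX Pool.Agent.PWF Pool.Agent.PWL
  Pool.Agent.PWY Pool.Agent.PWE Pool.Agent.PWG Pool.Agent.ARH
open scoped Classical

private theorem num1 (m e : ℕ) (h : 12 * e ≤ m) : (2 : ℝ) ^ e * (15 / 8) ^ m ≤ 2 ^ m := by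
  have h1 : (2 : ℝ) ≤ (16 / 15) ^ 12 := by norm_num
  have h2 : (2 : ℝ) ^ e ≤ (16 / 15) ^ m := by
    calc (2 : ℝ) ^ e ≤ ((16 / 15) ^ 12) ^ e := pow_le_pow_left₀ (by norm_num) h1 e
      _ = (16 / 15) ^ (12 * e) := by rw [← pow_mul]
      _ ≤ (16 / 15) ^ m := pow_le_pow_right₀ (by norm_num) h
  calc (2 : ℝ) ^ e * (15 / 8) ^ m ≤ (16 / 15) ^ m * (15 / 8) ^ m :=
        mul_le_mul_of_nonneg_right h2 (by positivity)
    _ = 2 ^ m := by
        rw [← mul_pow]
        norm_num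

private theorem num2 (l : ℕ) : ((7 : ℝ) / 8) ^ (6 * (l + 1)) * 2 ^ l < 1 / 2 := by
  have h1 : ((7 : ℝ) / 8) ^ 6 < 1 / 2 := by norm_num
  have h2 : ((7 : ℝ) / 8) ^ (6 * (l + 1)) < (1 / 2) ^ (l + 1) := by
    rw [pow_mul]
    exact pow_lt_pow_left₀ h1 (by positivity) (by omega)
  have h3 : (0 : ℝ) < 2 ^ l := by positivity
  calc ((7 : ℝ) / 8) ^ (6 * (l + 1)) * 2 ^ l < (1 / 2) ^ (l + 1) * 2 ^ l :=
        mul_lt_mul_of_pos_right h2 h3
    _ = 1 / 2 := by
        rw [pow_succ, mul_right_comm, ← mul_pow]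
        norm_num

theorem mcl (hMvf : St_Mvf) : St_Mcl := by
  intro hLaw hAvd G _ _ Ω _ _ M l q a m hd hm hlen
  -- the trivial case
  by_cases hd0 : Fintype.card Ω = 0
  · have hno : ∀ U : List (G × G), no Ω U = 0 := by
      intro U
      unfold no ob
      have hE : IsEmpty Ω := Fintype.card_eq_zero_iff.1 hd0
      rw [Finset.univ_eq_empty, Finset.image_empty, Finset.card_empty]
    refine ⟨M, mem_cls.1 (self_mem M), ?_, fun P _ => ⟨fun _ => true, fun _ _ => rfl, ?_⟩⟩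
    · rw [hno]
      exact Nat.zero_le _
    · rw [hno]
      exact Nat.zero_le _
  have hdpos : (0 : ℝ) < Fintype.card Ω := by exact_mod_cast Nat.pos_of_ne_zero hd0
  have hd' : (Fintype.card Ω : ℝ) ≤ 2 ^ l := by exact_mod_cast hd
  have hCpos : (0 : ℝ) < (cls M).card := by exact_mod_cast card_cls_pos M
  -- the bad masks
  let N : List (G × G) → Finset (Fin m → Bool) := fun L =>
    Finset.univ.filter fun c => ¬ no Ω (lv a m c L) ≤ no Ω M
  have hsum : ∑ L ∈ cls M, ((N L).card : ℝ) ≤ (15 / 8) ^ m * Fintype.card Ω * (cls M).card := by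
    have h1 : ∑ L ∈ cls M, ((N L).card : ℝ) =
        ∑ c : Fin m → Bool, (((cls M).filter fun L => ¬ no Ω (lv a m c L) ≤ no Ω M).card : ℝ) := by
      have h2 : ∀ L, ((N L).card : ℝ) =
          ∑ c : Fin m → Bool, if ¬ no Ω (lv a m c L) ≤ no Ω M then (1 : ℝ) else 0 := by
        intro L
        show ((Finset.univ.filter fun c : Fin m → Bool =>
          ¬ no Ω (lv a m c L) ≤ no Ω M).card : ℝ) = _
        rw [Finset.sum_boole]
      rw [Finset.sum_congr rfl fun L _ => h2 L, Finset.sum_comm]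
      refine Finset.sum_congr rfl fun c _ => ?_
      rw [Finset.sum_boole]
    rw [h1]
    refine le_trans (Finset.sum_le_sum fun c _ => hLaw hMvf (Ω := Ω) M a m c (by omega)) ?_
    rw [← Finset.sum_mul, ← Finset.sum_mul, hAvd.2 m]
  -- the two bad sets of lists
  let B₁ : Finset (List (G × G)) := (cls M).filter fun L =>
    2 * (15 / 8 : ℝ) ^ m * Fintype.card Ω ≤ (N L).card
  let B₂ : Finset (List (G × G)) := (cls M).filter fun L =>
    ¬ no Ω (L.drop (a + m)) ≤ no Ω M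
  have hB₁ : (B₁.card : ℝ) ≤ (cls M).card / 2 := by
    have h1 : (B₁.card : ℝ) * (2 * (15 / 8 : ℝ) ^ m * Fintype.card Ω) ≤
        ∑ L ∈ cls M, ((N L).card : ℝ) := by
      calc (B₁.card : ℝ) * (2 * (15 / 8 : ℝ) ^ m * Fintype.card Ω) =
          ∑ _L ∈ B₁, (2 * (15 / 8 : ℝ) ^ m * Fintype.card Ω) := by
            rw [Finset.sum_const, nsmul_eq_mul]
        _ ≤ ∑ L ∈ B₁, ((N L).card : ℝ) :=
            Finset.sum_le_sum fun L hL => (Finset.mem_filter.1 hL).2
        _ ≤ ∑ L ∈ cls M, ((N L).card : ℝ) :=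
            Finset.sum_le_sum_of_subset_of_nonneg (Finset.filter_subset _ _)
              fun L _ _ => Nat.cast_nonneg _
    have h2 : (0 : ℝ) < (15 / 8) ^ m * Fintype.card Ω := by positivity
    have h3 : (B₁.card : ℝ) * (2 * ((15 / 8 : ℝ) ^ m * Fintype.card Ω)) ≤
        (cls M).card * ((15 / 8) ^ m * Fintype.card Ω) := by
      calc (B₁.card : ℝ) * (2 * ((15 / 8 : ℝ) ^ m * Fintype.card Ω)) =
          (B₁.card : ℝ) * (2 * (15 / 8 : ℝ) ^ m * Fintype.card Ω) := by ring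
        _ ≤ _ := h1.trans hsum
        _ = _ := by ring
    have h4 : (B₁.card : ℝ) * 2 ≤ (cls M).card := by
      by_contra hcon
      push Not at hcon
      have h5 := mul_lt_mul_of_pos_right hcon h2
      have h6 : (B₁.card : ℝ) * 2 * ((15 / 8) ^ m * Fintype.card Ω) =
          (B₁.card : ℝ) * (2 * ((15 / 8 : ℝ) ^ m * Fintype.card Ω)) := by ring
      rw [h6] at h5
      exact absurd h3 (not_le.2 h5)
    linarith
  have hB₂ : (B₂.card : ℝ) < (cls M).card / 2 := by
    have h1 := thm_Orb thm_Gnv thm_Dch thm_Mrg (Ω := Ω) M (6 * (l + 1)) (by omega)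
    have h2 := thm_Shf M (a + m) (6 * (l + 1)) (by omega)
      fun U => if ¬ no Ω U ≤ no Ω M then (1 : ℝ) else 0
    have h3 : (B₂.card : ℝ) = ∑ L ∈ cls M,
        if ¬ no Ω ((L.drop (a + m)).take (6 * (l + 1))) ≤ no Ω M then (1 : ℝ) else 0 := by
      show (((cls M).filter fun L => ¬ no Ω (L.drop (a + m)) ≤ no Ω M).card : ℝ) = _
      rw [← Finset.sum_boole]
      refine Finset.sum_congr rfl fun L hL => ?_
      have h4 : (L.drop (a + m)).take (6 * (l + 1)) = L.drop (a + m) := by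
        apply List.take_of_length_le
        rw [List.length_drop, len_cls hL]
        omega
      rw [h4]
    have h5 : (((cls M).filter fun L => ¬ (ob Ω (Gn (L.take (6 * (l + 1))))).card ≤
        (ob Ω (Gn M)).card).card : ℝ) =
        ∑ L ∈ cls M, if ¬ no Ω (L.take (6 * (l + 1))) ≤ no Ω M then (1 : ℝ) else 0 := by
      rw [Finset.sum_boole]
      rfl
    rw [h5, ← h2, ← h3] at h1
    refine lt_of_le_of_lt h1 ?_
    have h6 : ((7 : ℝ) / 8) ^ (6 * (l + 1)) * Fintype.card Ω < 1 / 2 :=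
      lt_of_le_of_lt (mul_le_mul_of_nonneg_left hd' (by positivity)) (num2 l)
    have h7 := mul_lt_mul_of_pos_right h6 hCpos
    linarith
  obtain ⟨L, hL, hL1, hL2⟩ : ∃ L ∈ cls M, L ∉ B₁ ∧ L ∉ B₂ := by
    by_contra hcon
    push Not at hcon
    have h1 : cls M ⊆ B₁ ∪ B₂ := by
      intro L hL
      by_cases h2 : L ∈ B₁
      · exact Finset.mem_union_left _ h2
      · exact Finset.mem_union_right _ (hcon L hL h2)
    have h2 := (Finset.card_le_card h1).trans (Finset.card_union_le B₁ B₂)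
    have h3 : ((cls M).card : ℝ) ≤ B₁.card + B₂.card := by exact_mod_cast h2
    linarith
  refine ⟨L, mem_cls.1 hL, ?_, ?_⟩
  · by_contra h1
    exact hL2 (Finset.mem_filter.2 ⟨hL, h1⟩)
  · intro P hP
    have h1 : ((N L).card : ℝ) < 2 * (15 / 8 : ℝ) ^ m * Fintype.card Ω := by
      by_contra h2
      exact hL1 (Finset.mem_filter.2 ⟨hL, not_lt.1 h2⟩)
    have h2 : (N L).card * 2 ^ q < 2 ^ m := by
      have h3 : ((N L).card : ℝ) * 2 ^ q < 2 ^ m := by
        calc ((N L).card : ℝ) * 2 ^ q <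
            (2 * (15 / 8 : ℝ) ^ m * Fintype.card Ω) * 2 ^ q :=
              mul_lt_mul_of_pos_right h1 (by positivity)
          _ ≤ (2 * (15 / 8 : ℝ) ^ m * 2 ^ l) * 2 ^ q := by
              refine mul_le_mul_of_nonneg_right ?_ (by positivity)
              exact mul_le_mul_of_nonneg_left hd' (by positivity)
          _ = 2 ^ (q + l + 1) * (15 / 8) ^ m := by
              rw [pow_succ, pow_add]
              ring
          _ ≤ 2 ^ m := num1 m (q + l + 1) hm
      exact_mod_cast h3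
    obtain ⟨c, hc, hcP⟩ := hAvd.1 m q (N L) P hP h2
    refine ⟨c, hcP, ?_⟩
    by_contra h3
    exact hc (Finset.mem_filter.2 ⟨Finset.mem_univ _, h3⟩)

end Pool.Agent.LGU
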