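import Pool.Agent.LGU.St

/-!
# More on `mvt` (`St_Mvf`), helper59
-/

set_option autoImplicit false

namespace Pool.Agent.LGU

open Pool.Agent.PW Pool.Agent.PWM Pool.Agent.PWB Pool.Agent.PWX Pool.Agent.PWF Pool.Agent.PWL
  Pool.Agent.PWY Pool.Agent.PWE Pool.Agent.PWG Pool.Agent.ARH
open SpQ (Hd WStep WReach WExt Good bd cj1)
open scoped Classical

private theorem mvf1 {G : Type} [Group G] : ∀ (b₁ b₂ : List Bool) (L₁ L₂ : List (G × G)),
    b₁.length = L₁.length →
    ∃ u : G, mvt (b₁ ++ b₂) (L₁ ++ L₂) =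
      ((mvt b₁ L₁).1 ++ (mvt b₂ L₂).1.map (cj u), (mvt b₁ L₁).2 ++ (mvt b₂ L₂).2) ∧
      ∀ A : Subgroup G, (∀ p ∈ L₁, p.1 ∈ A ∧ p.2 ∈ A) → u ∈ A
  | [], b₂, [], L₂, _ => by
    refine ⟨1, ?_, fun A _ => A.one_mem⟩
    have e : (mvt b₂ L₂).1.map (cj (1 : G)) = (mvt b₂ L₂).1 :=
      (List.map_congr_left fun p _ => ARH.cj_one p).trans (List.map_id _)
    rw [List.nil_append, List.nil_append, e]
    simp [mvt]
  | [], _, _ :: _, _, h => by simp at h
  | _ :: _, _, [], _, h => by simp at h
  | false :: b₁, b₂, p :: L₁, L₂, h => by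
    obtain ⟨u, h1, h2⟩ := mvf1 b₁ b₂ L₁ L₂ (by simpa using h)
    refine ⟨u, ?_, fun A hA => h2 A fun q hq => hA q (List.mem_cons_of_mem _ hq)⟩
    rw [List.cons_append, List.cons_append, mvt, mvt, h1]
    rfl
  | true :: b₁, b₂, p :: L₁, L₂, h => by
    obtain ⟨u, h1, h2⟩ := mvf1 b₁ b₂ L₁ L₂ (by simpa using h)
    refine ⟨dd p * u, ?_, fun A hA => A.mul_mem ?_
      (h2 A fun q hq => hA q (List.mem_cons_of_mem _ hq))⟩
    · rw [List.cons_append, List.cons_append, mvt, mvt, h1]
      have e : ((mvt b₂ L₂).1.map (cj u)).map (cj (dd p)) = (mvt b₂ L₂).1.map (cj (dd p * u)) := by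
        rw [List.map_map]
        refine List.map_congr_left fun q _ => ?_
        exact ARH.cj_cj _ _ q
      simp only [List.map_append, e, List.cons_append]
    · exact In.dd (H := A) (hA p List.mem_cons_self)

private theorem mvf2 {G : Type} [Group G] : ∀ (b : List Bool) (L : List (G × G)) (i : ℕ),
    i < L.length → b.getD i false = true → L.getD i (1, 1) ∈ (mvt b L).2
  | [], _, i, _, h => by simp at h
  | _ :: _, [], i, h, _ => by simp at h
  | false :: b, p :: L, i, hi, h => by
    rw [mvt]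
    cases i with
    | zero => simp at h
    | succ i =>
      rw [List.getD_cons_succ] at h ⊢
      exact mvf2 b L i (by simpa using hi) h
  | true :: b, p :: L, i, hi, h => by
    rw [mvt]
    cases i with
    | zero =>
      rw [List.getD_cons_zero]
      exact List.mem_cons_self
    | succ i =>
      rw [List.getD_cons_succ] at h ⊢
      exact List.mem_cons_of_mem _ (mvf2 b L i (by simpa using hi) h)

private theorem mvf3 {G H : Type} [Group G] [Group H] (f : G →* H) : ∀ (b : List Bool)
    (L : List (G × G)), mvt b (L.map fun p => (f p.1, f p.2)) =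
      ((mvt b L).1.map fun p => (f p.1, f p.2), (mvt b L).2.map fun p => (f p.1, f p.2))
  | [], L => by
    rw [mvt, mvt]
    rfl
  | _ :: _, [] => by
    rw [List.map_nil, mvt, mvt]
    rfl
  | false :: b, p :: L => by
    rw [List.map_cons, mvt, mvt, mvf3 f b L]
    rfl
  | true :: b, p :: L => by
    rw [List.map_cons, mvt, mvt, mvf3 f b L]
    have e : ((mvt b L).1.map fun p => (f p.1, f p.2)).map (cj (dd (f p.1, f p.2))) =
        ((mvt b L).1.map (cj (dd p))).map fun p => (f p.1, f p.2) := by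
      rw [List.map_map, List.map_map]
      refine List.map_congr_left fun q _ => ?_
      simp only [Function.comp_apply, PWX.cj, PWX.dd, map_mul, map_inv]
    rw [e]
    rfl

private theorem mvf4 {G : Type} [Group G] {Ω : Type} [MulAction G Ω] [Fintype Ω] (u : G)
    (U : List (G × G)) : no Ω (U.map (cj u)) = no Ω U := by
  have hG : ∀ (u : G) (U : List (G × G)) (z : G), z ∈ Gn U → u * z * u⁻¹ ∈ Gn (U.map (cj u)) := by
    intro u U z hz
    have h1 : Gn U ≤ (Gn (U.map (cj u))).comap (MulAut.conj u).toMonoidHom := by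
      unfold PWF.Gn
      rw [Subgroup.closure_le]
      rintro q ⟨p, hp, h⟩
      refine Subgroup.subset_closure ⟨cj u p, List.mem_map_of_mem hp, ?_⟩
      rcases h with rfl | rfl
      · exact Or.inl rfl
      · exact Or.inr rfl
    exact h1 hz
  have hG' : ∀ z : G, z ∈ Gn (U.map (cj u)) → u⁻¹ * z * u ∈ Gn U := by
    intro z hz
    have h1 := hG u⁻¹ (U.map (cj u)) z hz
    have e : (U.map (cj u)).map (cj u⁻¹) = U := by
      rw [List.map_map]
      refine (List.map_congr_left fun p _ => ?_).trans (List.map_id _)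
      rw [Function.comp_apply, ARH.cj_cj, inv_mul_cancel, ARH.cj_one]
      rfl
    rw [e, inv_inv] at h1
    exact h1
  have horb : ∀ w : Ω, orb (Gn (U.map (cj u))) (u • w) = (fun x : Ω => u • x) '' orb (Gn U) w := by
    intro w
    ext z
    constructor
    · rintro ⟨a, ha, rfl⟩
      refine ⟨(u⁻¹ * a * u) • w, ⟨_, hG' a ha, rfl⟩, ?_⟩
      show u • (u⁻¹ * a * u) • w = a • u • w
      rw [← mul_smul, ← mul_smul]
      congr 1
      group
    · rintro ⟨x, ⟨a, ha, rfl⟩, rfl⟩
      refine ⟨u * a * u⁻¹, hG u U a ha, ?_⟩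
      show (u * a * u⁻¹) • u • w = u • a • w
      rw [← mul_smul, ← mul_smul]
      congr 1
      group
  unfold no
  have e : ob Ω (Gn (U.map (cj u))) = (ob Ω (Gn U)).image fun C => (fun x : Ω => u • x) '' C := by
    unfold ob
    rw [Finset.image_image]
    ext C
    constructor
    · intro h
      obtain ⟨w, -, rfl⟩ := Finset.mem_image.1 h
      refine Finset.mem_image.2 ⟨u⁻¹ • w, Finset.mem_univ _, ?_⟩
      rw [Function.comp_apply, ← horb, smul_inv_smul]
    · intro h
      obtain ⟨w, -, rfl⟩ := Finset.mem_image.1 h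
      refine Finset.mem_image.2 ⟨u • w, Finset.mem_univ _, ?_⟩
      rw [Function.comp_apply, ← horb]
  rw [e]
  apply Finset.card_image_of_injective
  exact Set.image_injective.2 (MulAction.injective u)

theorem thm_Mvf : St_Mvf :=
  ⟨fun b₁ b₂ L₁ L₂ h => mvf1 b₁ b₂ L₁ L₂ h, fun b L i hi h => mvf2 b L i hi h,
    fun f b L => mvf3 f b L, fun u U => mvf4 u U⟩

end Pool.Agent.LGU
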