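import Pool.Agent.LGU.St

/-!
# LGU / Mvw: the splitting by a mask, for handles (helper1)
-/

set_option autoImplicit false

namespace Pool.Agent.LGU

open Pool.Agent.PW Pool.Agent.PWM Pool.Agent.PWB Pool.Agent.PWX Pool.Agent.PWF Pool.Agent.PWL
  Pool.Agent.PWY Pool.Agent.PWE Pool.Agent.PWG Pool.Agent.ARH
open SpQ (Hd WStep WReach WExt Good bd cj1)
open scoped Classical

theorem thm_Mvw : St_Mvw := by
  intro Γ _ b
  induction b with
  | nil =>
    intro L hL
    refine ⟨L, [], ?_, ?_, ?_⟩
    · rw [List.append_nil]
      exact WReach.refl _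
    · rw [mvt]
    · rw [mvt]
      rfl
  | cons x b ih =>
    intro L hL
    cases L with
    | nil => simp at hL
    | cons p T =>
      obtain ⟨J, A, h1, h2, h3⟩ := ih T (by simpa using hL)
      have e : pr (MonoidHom.id Γ) (p :: T) = p.1 :: pr (MonoidHom.id Γ) T := rfl
      cases x with
      | false =>
        refine ⟨p :: J, A, h1.left [p], ?_, ?_⟩
        · rw [e, mvt]
          show p.1 :: pr (MonoidHom.id Γ) J = _
          rw [h2]
        · rw [e, mvt]
          exact h3
      | true =>
        refine ⟨SpQ.cj (bd p)⁻¹ J, p :: A, ?_, ?_, ?_⟩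
        · refine (h1.left [p]).trans ?_
          have h4 := (SpQ.move_right J p).right A
          simpa using h4
        · rw [e, mvt]
          show pr (MonoidHom.id Γ) (SpQ.cj (bd p)⁻¹ J) = (mvt b (pr (MonoidHom.id Γ) T)).1.map (cj (dd p.1))
          rw [← h2]
          unfold pr SpQ.cj
          rw [List.map_map, List.map_map]
          apply List.map_congr_left
          intro h _
          simp only [Function.comp_apply, MonoidHom.id_apply, SpQ.cj1, cj, dd, bd, inv_inv]
        · rw [e, mvt]
          show p.1 :: pr (MonoidHom.id Γ) A = _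
          rw [h3]

end Pool.Agent.LGU
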