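import Pool.Agent.LGU.St

/-!
# LGU, module Nat: the moves are natural
-/

set_option autoImplicit false

namespace Pool.Agent.LGU

open Pool.Agent.PW Pool.Agent.PWM Pool.Agent.PWB Pool.Agent.PWX Pool.Agent.PWF Pool.Agent.PWL
  Pool.Agent.PWY Pool.Agent.PWE Pool.Agent.PWG Pool.Agent.ARH
open SpQ (Hd WStep WReach WExt Good bd cj1)
open scoped Classical

section

variable {P Q : Type} [Group P] [Group Q]

private theorem Nat_step (f : P →* Q) {lo hi : ℕ} {x0 y0 : ℕ → P × P} (h : Step lo hi x0 y0)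
    (x : ℕ → Q × Q) (hx : ∀ k, lo ≤ k → k < hi → x k = (f (x0 k).1, f (x0 k).2)) :
    ∃ y, Step lo hi x y ∧ ∀ k, lo ≤ k → k < hi → y k = (f (y0 k).1, f (y0 k).2) := by
  cases h with
  | swap l h1 h2 =>
    refine ⟨_, Step.swap x l h1 h2, fun k hk1 hk2 => ?_⟩
    have e1 := hx l h1 (by omega)
    have e2 := hx (l + 1) (by omega) h2
    simp only [Function.update_apply]
    split_ifs with h3 h4
    · rw [e1, e2]
      simp [cj, dd]
    · rw [e2]
    · exact hx k hk1 hk2
  | rot l h1 h2 =>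
    refine ⟨_, Step.rot x l h1 h2, fun k hk1 hk2 => ?_⟩
    have e1 := hx l h1 h2
    simp only [Function.update_apply]
    split_ifs with h3
    · rw [e1]
      simp [rt]
    · exact hx k hk1 hk2
  | slide l h1 h2 =>
    refine ⟨_, Step.slide x l h1 h2, fun k hk1 hk2 => ?_⟩
    have e1 := hx l h1 (by omega)
    have e2 := hx (l + 1) (by omega) h2
    simp only [Function.update_apply]
    split_ifs with h3 h4
    · rw [e1, e2]
      simp [tv]
    · rw [e1, e2]
      simp [tv]
    · exact hx k hk1 hk2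

private theorem Nat_go (f : P →* Q) {lo hi : ℕ} {x0 y0 : ℕ → P × P} (h : Go lo hi x0 y0)
    (x : ℕ → Q × Q) (hx : ∀ k, lo ≤ k → k < hi → x k = (f (x0 k).1, f (x0 k).2)) :
    ∃ y, Go lo hi x y ∧ ∀ k, lo ≤ k → k < hi → y k = (f (y0 k).1, f (y0 k).2) := by
  unfold Go at h ⊢
  induction h with
  | refl => exact ⟨x, Relation.ReflTransGen.refl, hx⟩
  | tail _ h2 ih =>
    obtain ⟨y, hy1, hy2⟩ := ih
    obtain ⟨z, hz1, hz2⟩ := Nat_step f h2 y hy2
    exact ⟨z, hy1.tail hz1, hz2⟩

end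

theorem thm_Nat : St_Nat := by
  intro P Q _ _ f L L' h
  obtain ⟨hl, h⟩ := h
  refine ⟨by simpa using hl, fun m x hx => ?_⟩
  have hex : ∃ x0 : ℕ → P × P, At m L x0 := by
    refine ⟨fun k => if hk : m ≤ k ∧ k - m < L.length then L[k - m] else (1, 1), ?_⟩
    intro i hi
    have h1 : m ≤ m + i ∧ m + i - m < L.length := ⟨by omega, by omega⟩
    simp only [dif_pos h1]
    congr 1
    omega
  obtain ⟨x0, hx0⟩ := hex
  obtain ⟨y0, hy0, hy0'⟩ := h m x0 hx0
  obtain ⟨y, hy, hy'⟩ := Nat_go f hy0 x (by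
    intro k hk1 hk2
    have h1 : k - m < L.length := by omega
    have h2 := hx (k - m) (by simpa using h1)
    have h3 := hx0 (k - m) h1
    have h4 : m + (k - m) = k := by omega
    rw [h4] at h2 h3
    rw [h2, h3]
    simp)
  refine ⟨y, by simpa using hy, ?_⟩
  intro i hi
  have hi' : i < L'.length := by simpa using hi
  rw [hy' (m + i) (by omega) (by omega), hy0' i hi']
  simp

end Pool.Agent.LGU
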