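import Pool.Agent.LGU.St

/-!
# The number of orbits and the orbit of the base coset (`St_Orn`), helper59
-/

set_option autoImplicit false

namespace Pool.Agent.LGU

open Pool.Agent.PW Pool.Agent.PWM Pool.Agent.PWB Pool.Agent.PWX Pool.Agent.PWF Pool.Agent.PWL
  Pool.Agent.PWY Pool.Agent.PWE Pool.Agent.PWG Pool.Agent.ARH
open SpQ (Hd WStep WReach WExt Good bd cj1)
open scoped Classical

/-- fewer orbits of the larger group: if the smaller one has not more then the orbits are equal -/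
theorem orb_eq_of_card {G : Type} [Group G] {Ω : Type} [Fintype Ω] [MulAction G Ω]
    {A B : Subgroup G} (h : A ≤ B) (hc : (ob Ω A).card ≤ (ob Ω B).card) (w : Ω) :
    orb B w ⊆ orb A w := by
  have hmem : ∀ (D : Subgroup G) (u : Ω), u ∈ orb D u := fun D u => ⟨1, D.one_mem, one_smul _ _⟩
  have hsat : ∀ (D : Subgroup G) (u v : Ω), v ∈ orb D u → orb D v = orb D u := by
    rintro D u v ⟨a, ha, rfl⟩
    ext z
    constructor
    · rintro ⟨b, hb, rfl⟩
      exact ⟨b * a, D.mul_mem hb ha, mul_smul _ _ _⟩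
    · rintro ⟨b, hb, rfl⟩
      refine ⟨b * a⁻¹, D.mul_mem hb (D.inv_mem ha), ?_⟩
      rw [mul_smul, inv_smul_smul]
  let F : Set Ω → Set Ω := fun C => {w' : Ω | ∃ u ∈ C, ∃ b ∈ B, b • u = w'}
  have hF : ∀ u : Ω, F (orb A u) = orb B u := by
    intro u
    ext w'
    constructor
    · rintro ⟨v, ⟨a, ha, rfl⟩, b, hb, rfl⟩
      exact ⟨b * a, B.mul_mem hb (h ha), mul_smul b a u⟩
    · rintro ⟨b, hb, rfl⟩
      exact ⟨u, hmem A u, b, hb, rfl⟩
  have himg : (ob Ω A).image F = ob Ω B := by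
    unfold ob
    rw [Finset.image_image]
    exact Finset.image_congr fun u _ => hF u
  have hinj : Set.InjOn F (ob Ω A) := by
    rw [← Finset.card_image_iff]
    rw [himg]
    refine le_antisymm ?_ hc
    rw [← himg]
    exact Finset.card_image_le
  intro v hv
  have h1 : F (orb A v) = F (orb A w) := by
    rw [hF, hF]
    exact hsat B w v hv
  have h2 : orb A v = orb A w := by
    refine hinj ?_ ?_ h1
    · exact Finset.mem_coe.2 (Finset.mem_image_of_mem _ (Finset.mem_univ v))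
    · exact Finset.mem_coe.2 (Finset.mem_image_of_mem _ (Finset.mem_univ w))
  rw [← h2]
  exact hmem A v

/-- the group of the values is the image of the group of the list -/
theorem Gn_pr {Γ Q : Type} [Group Γ] [Group Q] (f : Γ →* Q) (B : List (Hd Γ 1)) :
    Gn (pr f B) = (SpQ.E B).map f := by
  unfold PWF.Gn SpQ.E
  rw [MonoidHom.map_closure]
  congr 1
  ext q
  constructor
  · rintro ⟨p, hp, h⟩
    obtain ⟨b, hb, rfl⟩ := List.mem_map.1 hp
    rcases h with rfl | rfl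
    · exact ⟨b.1.1, ⟨b, hb, Or.inl rfl⟩, rfl⟩
    · exact ⟨b.1.2, ⟨b, hb, Or.inr rfl⟩, rfl⟩
  · rintro ⟨z, ⟨b, hb, h⟩, rfl⟩
    refine ⟨_, List.mem_map.2 ⟨b, hb, rfl⟩, ?_⟩
    rcases h with rfl | rfl
    · exact Or.inl rfl
    · exact Or.inr rfl

theorem thm_Orn : St_Orn := by
  intro Γ _ Λ _ U B hUB hno g hg
  set f := MulAction.toPermHom Γ (Γ ⧸ Λ) with hf
  unfold no at hno
  rw [Gn_pr, Gn_pr] at hno
  have h1 := orb_eq_of_card (Subgroup.map_mono hUB) hno ((1 : Γ) : Γ ⧸ Λ)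
  have h2 : ((g : Γ) : Γ ⧸ Λ) ∈ orb ((SpQ.E B).map f) ((1 : Γ) : Γ ⧸ Λ) := by
    refine ⟨f g, Subgroup.mem_map_of_mem f hg, ?_⟩
    show ((g * 1 : Γ) : Γ ⧸ Λ) = (g : Γ ⧸ Λ)
    rw [mul_one]
  obtain ⟨a, ha, h3⟩ := h1 h2
  obtain ⟨h, hh, rfl⟩ := Subgroup.mem_map.1 ha
  refine ⟨h, hh, ?_⟩
  have h4 : ((h * 1 : Γ) : Γ ⧸ Λ) = (g : Γ ⧸ Λ) := h3
  rw [mul_one] at h4
  exact QuotientGroup.eq.1 h4

end Pool.Agent.LGU
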