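import Pool.Agent.LGU.St
import Pool.Agent.PWE.Gnv
import Pool.Agent.PWE.Dch
import Pool.Agent.PWE.Mrg
import Pool.Agent.PWE.Orb

/-!
# LGU / Rd2: after moves the handles alone are transitive on the orbit of the base coset (helper35)
-/

set_option autoImplicit false

namespace Pool.Agent.LGU

open Pool.Agent.PW Pool.Agent.PWM Pool.Agent.PWB Pool.Agent.PWX Pool.Agent.PWF Pool.Agent.PWL
  Pool.Agent.PWY Pool.Agent.PWE Pool.Agent.PWG Pool.Agent.ARH
open SpQ (Hd WStep WReach WExt Good bd cj1)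
open LGC (It IStep IReach GI hl icj ib lt)
open Pool.Agent.EKH (Orb)
open scoped Classical Pointwise

section
variable {Γ : Type} [Group Γ]

/-- the orbit of the base coset -/
private def oo (Λ : Subgroup Γ) (C : Subgroup Γ) : Set (Γ ⧸ Λ) := (fun h : Γ => (h : Γ ⧸ Λ)) '' C

private theorem oo_mono {Λ C D : Subgroup Γ} (h : C ≤ D) : oo Λ C ⊆ oo Λ D :=
  Set.image_mono h

/-- the group preserves its orbit -/
private theorem le_stab (Λ C : Subgroup Γ) : C ≤ MulAction.stabilizer Γ (oo Λ C) := by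
  have key : ∀ z ∈ C, ∀ ω ∈ oo Λ C, z • ω ∈ oo Λ C := by
    rintro z hz _ ⟨h, hh, rfl⟩
    exact ⟨z * h, C.mul_mem hz hh, rfl⟩
  intro z hz
  rw [MulAction.mem_stabilizer_iff]
  refine Set.Subset.antisymm ?_ ?_
  · rintro _ ⟨ω, hω, rfl⟩
    exact key z hz ω hω
  · intro ω hω
    exact ⟨z⁻¹ • ω, key z⁻¹ (C.inv_mem hz) ω hω, smul_inv_smul z ω⟩

private theorem oo_eq_of_orb {Λ C D : Subgroup Γ} (hCD : C ≤ D) (h : Orb Λ C D) :
    oo Λ C = oo Λ D := by
  refine Set.Subset.antisymm (oo_mono hCD) ?_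
  rintro _ ⟨g, hg, rfl⟩
  obtain ⟨x, hx, hxg⟩ := h g hg
  exact ⟨x, hx, QuotientGroup.eq.2 hxg⟩

/-- some handle can be removed -/
private theorem one_out (hL : St_Lgw) (hO : St_Orn) (Λ : Subgroup Γ) [Λ.FiniteIndex] (ℓ : ℕ)
    (B : List (Hd Γ 1)) (hind : Λ.index ≤ 2 ^ ℓ) (hlen : 100 * (ℓ + 1) ≤ B.length) :
    ∃ (B₁ : List (Hd Γ 1)) (p : Hd Γ 1), WReach B (B₁ ++ [p]) ∧ Orb Λ (SpQ.E B₁) (SpQ.E B) := by
  have : Fintype (Γ ⧸ Λ) := Fintype.ofFinite _
  set f : Γ →* Equiv.Perm (Γ ⧸ Λ) := MulAction.toPermHom Γ (Γ ⧸ Λ) with hf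
  set M := pr f B with hM
  have hMl : M.length = B.length := by
    rw [hM]
    unfold pr
    exact List.length_map _
  have h1 := thm_Orb thm_Gnv thm_Dch thm_Mrg (Ω := Γ ⧸ Λ) M (B.length - 1) (by omega)
  have hcard : (Fintype.card (Γ ⧸ Λ) : ℝ) ≤ 2 ^ ℓ := by
    have h2 : Fintype.card (Γ ⧸ Λ) ≤ 2 ^ ℓ := by
      rw [← Nat.card_eq_fintype_card]
      exact hind
    exact_mod_cast h2
  have hc : 0 < ((cls M).card : ℝ) := by
    have h2 : 0 < (cls M).card := Finset.card_pos.2 ⟨M, self_mem M⟩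
    exact_mod_cast h2
  have hsmall : ((7 : ℝ) / 8) ^ (B.length - 1) * Fintype.card (Γ ⧸ Λ) < 1 := by
    have e1 : ((7 : ℝ) / 8) ^ (B.length - 1) ≤ (7 / 8) ^ (6 * (ℓ + 1)) :=
      pow_le_pow_of_le_one (by norm_num) (by norm_num) (by omega)
    have e2 : ((7 : ℝ) / 8) ^ (6 * (ℓ + 1)) ≤ (1 / 2) ^ (ℓ + 1) := by
      rw [pow_mul]
      exact pow_le_pow_left₀ (by positivity) (by norm_num) _
    have e3 : ((1 : ℝ) / 2) ^ (ℓ + 1) * 2 ^ ℓ = 1 / 2 := by
      rw [pow_succ, one_div, inv_pow]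
      field_simp
    have e4 : (0 : ℝ) ≤ Fintype.card (Γ ⧸ Λ) := by positivity
    calc ((7 : ℝ) / 8) ^ (B.length - 1) * Fintype.card (Γ ⧸ Λ)
        ≤ (1 / 2) ^ (ℓ + 1) * 2 ^ ℓ := by
          refine mul_le_mul (e1.trans e2) hcard e4 (by positivity)
      _ = 1 / 2 := e3
      _ < 1 := by norm_num
  obtain ⟨L, hLc, hLn⟩ : ∃ L ∈ cls M, (ob (Γ ⧸ Λ) (Gn (L.take (B.length - 1)))).card ≤
      (ob (Γ ⧸ Λ) (Gn M)).card := by
    by_contra hcon
    push Not at hcon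
    have h3 : ((cls M).filter fun L => ¬ (ob (Γ ⧸ Λ) (Gn (L.take (B.length - 1)))).card ≤
        (ob (Γ ⧸ Λ) (Gn M)).card) = cls M := by
      apply Finset.filter_true_of_mem
      intro L hL
      exact not_le.2 (hcon L hL)
    rw [h3] at h1
    nlinarith
  rw [mem_cls] at hLc
  obtain ⟨B', hB', hpr⟩ := hL f B L (by rw [← hM]; exact hLc)
  have hl' : B'.length = B.length := hB'.length_eq
  obtain ⟨B₁, p, rfl⟩ : ∃ B₁ p, B' = B₁ ++ [p] := by
    rcases List.eq_nil_or_concat B' with h | ⟨B₁, p, h⟩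
    · subst h
      rw [List.length_nil] at hl'
      omega
    · exact ⟨B₁, p, by rw [h, List.concat_eq_append]⟩
  rw [List.length_append, List.length_singleton] at hl'
  refine ⟨B₁, p, hB', ?_⟩
  have hE : SpQ.E B₁ ≤ SpQ.E B := by
    rw [← hB'.E_eq, SpQ.E_append]
    exact le_sup_left
  refine hO Λ B₁ B hE ?_
  have e : pr f B₁ = L.take (B.length - 1) := by
    have h4 : pr f (B₁ ++ [p]) = pr f B₁ ++ pr f [p] := by
      unfold pr
      exact List.map_append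
    have h5 : (pr f B₁).length = B.length - 1 := by
      unfold pr
      rw [List.length_map]
      omega
    rw [← hpr, h4, ← h5, List.take_left]
  unfold no
  rw [← hf, e, ← hM]
  exact hLn

theorem thm_Rd2 : St_Rd2 := by
  intro hL hO Γ _ Λ _ ℓ X₀ B₀ hind hlen
  -- a reachable system with the largest orbit
  let S : Set (List (It Γ 1) × List (Hd Γ 1)) :=
    {s | IReach (X₀ ++ hl B₀) (s.1 ++ hl s.2) ∧ s.2.length = B₀.length}
  obtain ⟨⟨X, B⟩, ⟨hr, hl0⟩, hmax⟩ := (measure fun s : List (It Γ 1) × List (Hd Γ 1) =>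
    Nat.card (Γ ⧸ Λ) - (oo Λ (SpQ.E s.2)).ncard).wf.has_min S ⟨(X₀, B₀), IReach.refl _, rfl⟩
  dsimp only at hr hl0
  have hmax' : ∀ (X' : List (It Γ 1)) (B' : List (Hd Γ 1)), IReach (X ++ hl B) (X' ++ hl B') →
      B'.length = B.length → (oo Λ (SpQ.E B')).ncard ≤ (oo Λ (SpQ.E B)).ncard := by
    intro X' B' h1 h2
    have h3 : ¬ Nat.card (Γ ⧸ Λ) - (oo Λ (SpQ.E B')).ncard <
        Nat.card (Γ ⧸ Λ) - (oo Λ (SpQ.E B)).ncard :=
      hmax (X', B') ⟨hr.trans h1, h2.trans hl0⟩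
    have h4 : ∀ C : Subgroup Γ, (oo Λ C).ncard ≤ Nat.card (Γ ⧸ Λ) := by
      intro C
      rw [← Set.ncard_univ]
      exact Set.ncard_le_ncard (Set.subset_univ _) (Set.toFinite _)
    have h5 := h4 (SpQ.E B')
    have h6 := h4 (SpQ.E B)
    omega
  obtain ⟨B₁, p, hp, ho⟩ := one_out hL hO Λ ℓ B hind (by rw [hl0]; exact hlen)
  have hE1 : SpQ.E B₁ ≤ SpQ.E B := by
    rw [← hp.E_eq, SpQ.E_append]
    exact le_sup_left
  have ho' : oo Λ (SpQ.E B₁) = oo Λ (SpQ.E B) := oo_eq_of_orb hE1 ho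
  have hlB : B₁.length + 1 = B.length := by
    have h1 := hp.length_eq
    rwa [List.length_append, List.length_singleton] at h1
  obtain ⟨T, hT⟩ : ∃ T, T = MulAction.stabilizer Γ (oo Λ (SpQ.E B)) := ⟨_, rfl⟩
  have hBT : SpQ.E B ≤ T := by
    rw [hT]
    exact le_stab Λ _
  have key : ∀ (X' : List (It Γ 1)) (h : Hd Γ 1), IReach (X ++ hl B) (X' ++ hl (h :: B₁)) →
      h.1.1 ∈ T ∧ h.1.2 ∈ T := by
    intro X' h h1
    have h2 := hmax' X' (h :: B₁) h1 (by rw [List.length_cons, hlB])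
    have h3 : SpQ.E B₁ ≤ SpQ.E (h :: B₁) := by
      have e : h :: B₁ = [h] ++ B₁ := rfl
      rw [e, SpQ.E_append]
      exact le_sup_right
    have h4 : oo Λ (SpQ.E B) = oo Λ (SpQ.E (h :: B₁)) := by
      refine Set.eq_of_subset_of_ncard_le ?_ h2 (Set.toFinite _)
      rw [← ho']
      exact oo_mono h3
    have h5 : SpQ.E (h :: B₁) ≤ T := by
      rw [hT, h4]
      exact le_stab Λ _
    exact ⟨h5 (SpQ.fst_mem_E List.mem_cons_self), h5 (SpQ.snd_mem_E List.mem_cons_self)⟩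
  -- the handle `p` on the left of `B₁`
  obtain ⟨u, hu, hmv⟩ := IReach.move_left (hl B₁) (Sum.inl p)
  rw [LGC.GI_hl] at hu
  have hp' : icj u (Sum.inl p : It Γ 1) = Sum.inl (cj1 u p) := rfl
  rw [hp'] at hmv
  have hBp : IReach (hl B) (Sum.inl (cj1 u p) :: hl B₁) := by
    refine (IReach.of_wreach hp).trans ?_
    rw [LGC.hl_append]
    exact hmv
  have hpT : SpQ.E [p] ≤ T := by
    refine le_trans ?_ hBT
    rw [← hp.E_eq, SpQ.E_append]
    exact le_sup_right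
  have hpT1 : ∀ z ∈ lt (Sum.inl p : It Γ 1), z ∈ T := by
    rw [← LGC.GI_singleton_le, LGC.GI_inl]
    exact hpT
  have hpT2 : ∀ z ∈ lt (Sum.inl (cj1 u p) : It Γ 1), z ∈ T := by
    rw [← hp']
    exact LGC.lt_icj_le (hBT (hE1 hu)) hpT1
  have claim : ∀ X₂ X₁ : List (It Γ 1), X = X₁ ++ X₂ → GI X₂ ≤ T := by
    intro X₂
    induction X₂ with
    | nil =>
      intro _ _
      rw [LGC.GI_nil]
      exact bot_le
    | cons i X₃ ih =>
      intro X₁ hX
      have h3 : GI X₃ ≤ T := ih (X₁ ++ [i]) (by rw [hX, List.append_assoc]; rfl)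
      rw [LGC.GI_cons]
      refine sup_le (LGC.GI_singleton_le.2 ?_) h3
      have hr1 : IReach (X ++ hl B) (X₁ ++ (i :: (X₃ ++ [Sum.inl (cj1 u p)])) ++ hl B₁) := by
        have h4 := hBp.left X
        rw [hX] at h4 ⊢
        simpa using h4
      rcases i with h | y
      · -- a handle
        have h4 := IReach.move_right (Sum.inl h) (X₃ ++ [Sum.inl (cj1 u p)])
        have h5 := h4.context X₁ (hl B₁)
        have h6 := hr1.trans h5
        obtain ⟨V, hV⟩ : ∃ V : List (It Γ 1), V = (X₃ ++ [Sum.inl (cj1 u p)]).map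
          (icj (ib (Sum.inl h : It Γ 1))⁻¹) := ⟨_, rfl⟩
        rw [← hV] at h6
        have e : X₁ ++ (V ++ [Sum.inl h]) ++ hl B₁ = (X₁ ++ V) ++ hl (h :: B₁) := by
          rw [LGC.hl_cons]
          simp
        rw [e] at h6
        obtain ⟨h7, h8⟩ := key _ _ h6
        intro z hz
        rcases hz with rfl | hz
        · exact h7
        · rw [Set.mem_singleton_iff] at hz
          rw [hz]
          exact h8
      · -- a puncture
        obtain ⟨v, hv, h4⟩ := IReach.move_left X₃ (Sum.inl (cj1 u p))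
        have e1 : icj v (Sum.inl (cj1 u p) : It Γ 1) = Sum.inl (cj1 v (cj1 u p)) := rfl
        rw [e1] at h4
        have hpT3 : ∀ z ∈ lt (Sum.inl (cj1 v (cj1 u p)) : It Γ 1), z ∈ T := by
          rw [← e1]
          exact LGC.lt_icj_le (h3 hv) hpT2
        obtain ⟨⟨⟨a, b⟩, o⟩, hab⟩ : ∃ q : Hd Γ 1, q = cj1 v (cj1 u p) := ⟨_, rfl⟩
        rw [← hab] at h4 hpT3
        have haT : a ∈ T := hpT3 a (Or.inl rfl)
        have hbT : b ∈ T := hpT3 b (Or.inr rfl)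
        have h5 : IReach (Sum.inr y :: (X₃ ++ [Sum.inl (cj1 u p)]))
            (Sum.inr y :: Sum.inl ((a, b), o) :: X₃) := h4.cons (Sum.inr y)
        have h6 : IReach (Sum.inr y :: Sum.inl ((a, b), o) :: X₃)
            (Sum.inl ((a, b), o) :: icj (ib (Sum.inl ((a, b), o) : It Γ 1)) (Sum.inr y) :: X₃) :=
          IReach.of_step (IStep.br' [] X₃ (Sum.inr y) (Sum.inl ((a, b), o)))
        obtain ⟨y', hy'⟩ : ∃ y' : Γ, y' = (bd (((a, b), o) : Hd Γ 1))⁻¹ * y *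
          bd (((a, b), o) : Hd Γ 1) := ⟨_, rfl⟩
        have e2 : icj (ib (Sum.inl ((a, b), o) : It Γ 1)) (Sum.inr y : It Γ 1) =
            Sum.inr y' := by
          rw [hy']
          rfl
        rw [e2] at h6
        obtain ⟨y'', h7⟩ : ∃ y'' : Γ, IReach (Sum.inl ((a, b), o) :: Sum.inr y' :: X₃)
            (Sum.inl ((a, y'⁻¹ * b), o) :: Sum.inr y'' :: X₃) :=
          ⟨_, IReach.of_step (IStep.ab [] X₃ a b y' o)⟩
        have h8 := IReach.move_right (Sum.inl ((a, y'⁻¹ * b), o)) (Sum.inr y'' :: X₃)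
        have h9 := hr1.trans ((((h5.trans h6).trans h7).trans h8).context X₁ (hl B₁))
        obtain ⟨V, hV⟩ : ∃ V : List (It Γ 1), V = (Sum.inr y'' :: X₃).map
          (icj (ib (Sum.inl ((a, y'⁻¹ * b), o) : It Γ 1))⁻¹) := ⟨_, rfl⟩
        rw [← hV] at h9
        have e : X₁ ++ (V ++ [Sum.inl ((a, y'⁻¹ * b), o)]) ++ hl B₁ =
            (X₁ ++ V) ++ hl (((a, y'⁻¹ * b), o) :: B₁) := by
          rw [LGC.hl_cons]
          simp
        rw [e] at h9
        obtain ⟨-, h10⟩ := key _ _ h9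
        have h11 : y'⁻¹ * b ∈ T := h10
        have h12 : y' ∈ T := by
          have h13 := T.mul_mem h11 (T.inv_mem hbT)
          rw [mul_inv_cancel_right] at h13
          exact inv_mem_iff.1 h13
        have hD : bd (((a, b), o) : Hd Γ 1) ∈ T := SpQ.bd_mem haT hbT
        have h14 : y = bd (((a, b), o) : Hd Γ 1) * y' * (bd (((a, b), o) : Hd Γ 1))⁻¹ := by
          rw [hy']
          group
        intro z hz
        rw [show z = y from hz, h14]
        exact T.mul_mem (T.mul_mem hD h12) (T.inv_mem hD)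
  have hXT : GI (X ++ hl B) ≤ T := by
    rw [LGC.GI_append_hl]
    exact sup_le (claim X [] rfl) hBT
  refine ⟨X, B, hr, hl0, ?_⟩
  intro g hg
  rw [← hr.GI_eq] at hg
  have h1 : g ∈ MulAction.stabilizer Γ (oo Λ (SpQ.E B)) := by
    rw [← hT]
    exact hXT hg
  rw [MulAction.mem_stabilizer_iff] at h1
  have h2 : ((g : Γ) : Γ ⧸ Λ) ∈ oo Λ (SpQ.E B) := by
    rw [← h1]
    refine ⟨((1 : Γ) : Γ ⧸ Λ), ⟨1, Subgroup.one_mem _, rfl⟩, ?_⟩
    show ((g * 1 : Γ) : Γ ⧸ Λ) = _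
    rw [mul_one]
  obtain ⟨x, hx, hxg⟩ := h2
  exact ⟨x, hx, QuotientGroup.eq.1 hxg⟩

end

end Pool.Agent.LGU
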