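import Pool.Agent.LGU.St
import Pool.Agent.LGU.Orn
import Pool.Agent.PWE.Gnv
import Pool.Agent.PWE.Dch
import Pool.Agent.PWE.Mrg
import Pool.Agent.PWE.Orb
import Pool.Agent.PWE.Shf
import Pool.Agent.LGC.Gno
import Pool.Agent.LGC.Cnj
import Pool.Agent.LGC.Pas
import Pool.Agent.LGC.Slo
import Pool.Agent.SpQ.Bridge

/-!
# LGU / RedN: killed handles, after moves they are transitive on the orbit of `N` (helper1)

`N` is normal, `Λ ≤ N` has relative index at most `2 ^ ℓ`, the handles of `B` are in `N`.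
-/

set_option autoImplicit false

namespace Pool.Agent.LGU

open Pool.Agent.PW Pool.Agent.PWM Pool.Agent.PWB Pool.Agent.PWX Pool.Agent.PWF Pool.Agent.PWL
  Pool.Agent.PWY Pool.Agent.PWE Pool.Agent.PWG Pool.Agent.ARH
open SpQ (Hd WStep WReach WExt Good bd cj1)
open LGC (It IStep IReach GI hl icj ib lt Kl imap)
open Pool.Agent.EKH (Orb)
open scoped Classical Pointwise

section uni

variable {N Q : Type} [Group N] [Group Q] [Fintype Q] {Ω : Type} [Fintype Ω] [MulAction Q Ω]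

/-- a letter which is not in `A`, and the rest of the list has the same orbits -/
theorem uni (hL : St_Lgw) (f : N →* Q) (ℓ : ℕ) (B : List (Hd N 1))
    (hc : Fintype.card Ω ≤ 2 ^ ℓ) (hlen : 100 * (ℓ + 1) ≤ B.length) (A : Subgroup Q) :
    ∃ (p : Hd N 1) (B₁ : List (Hd N 1)), WReach B (p :: B₁) ∧
      no Ω (pr f B₁) ≤ no Ω (pr f B) ∧ (f p.1.2 ∈ A → Gn (pr f B) ≤ A) := by
  set M := pr f B with hM
  have hMl : M.length = B.length := by
    rw [hM]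
    unfold pr
    exact List.length_map _
  have hcard : (Fintype.card Ω : ℝ) ≤ 2 ^ ℓ := by exact_mod_cast hc
  have hcp : 0 < ((cls M).card : ℝ) := by
    have h2 : 0 < (cls M).card := Finset.card_pos.2 ⟨M, self_mem M⟩
    exact_mod_cast h2
  have hsmall : ((7 : ℝ) / 8) ^ (B.length - 1) * Fintype.card Ω ≤ 1 / 8 := by
    have e1 : ((7 : ℝ) / 8) ^ (B.length - 1) ≤ (7 / 8) ^ (18 * (ℓ + 1)) :=
      pow_le_pow_of_le_one (by norm_num) (by norm_num) (by omega)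
    have e2 : ((7 : ℝ) / 8) ^ (18 * (ℓ + 1)) ≤ (1 / 8) ^ (ℓ + 1) := by
      rw [pow_mul]
      exact pow_le_pow_left₀ (by positivity) (by norm_num) _
    have e3 : ((1 : ℝ) / 8) ^ (ℓ + 1) * 2 ^ ℓ ≤ 1 / 8 := by
      have e5 : ((1 : ℝ) / 8) ^ (ℓ + 1) * 2 ^ ℓ = 1 / 8 * (1 / 4) ^ ℓ := by
        rw [pow_succ, mul_comm ((1 / 8 : ℝ) ^ ℓ), mul_assoc, ← mul_pow]
        norm_num
      rw [e5]
      have e6 : ((1 : ℝ) / 4) ^ ℓ ≤ 1 := pow_le_one₀ (by norm_num) (by norm_num)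
      linarith
    have e4 : (0 : ℝ) ≤ Fintype.card Ω := by positivity
    calc ((7 : ℝ) / 8) ^ (B.length - 1) * Fintype.card Ω
        ≤ (1 / 8) ^ (ℓ + 1) * 2 ^ ℓ := mul_le_mul (e1.trans e2) hcard e4 (by positivity)
      _ ≤ 1 / 8 := e3
  -- the rest of the list
  have h1 := thm_Orb thm_Gnv thm_Dch thm_Mrg (Ω := Ω) M (B.length - 1) (by omega)
  have h2 : (((cls M).filter fun L => ¬ (ob Ω (Gn (L.drop 1))).card ≤
      (ob Ω (Gn M)).card).card : ℝ) ≤ 1 / 8 * (cls M).card := by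
    have h3 := thm_Shf M 1 (B.length - 1) (by omega) (fun L =>
      if ¬ (ob Ω (Gn L)).card ≤ (ob Ω (Gn M)).card then (1 : ℝ) else 0)
    have h4 : ∑ L ∈ cls M, (if ¬ (ob Ω (Gn (L.drop 1))).card ≤ (ob Ω (Gn M)).card then
        (1 : ℝ) else 0) = ∑ L ∈ cls M,
        (if ¬ (ob Ω (Gn ((L.drop 1).take (B.length - 1)))).card ≤ (ob Ω (Gn M)).card then
          (1 : ℝ) else 0) := by
      refine Finset.sum_congr rfl fun L hL' => ?_
      have h5 : L.length = M.length := len_cls hL'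
      have h6 : (L.drop 1).take (B.length - 1) = L.drop 1 := by
        apply List.take_of_length_le
        rw [List.length_drop]
        omega
      rw [h6]
    rw [← Finset.sum_boole, h4, h3, Finset.sum_boole]
    refine h1.trans ?_
    exact mul_le_mul_of_nonneg_right hsmall hcp.le
  obtain ⟨L, hLc, hLn, hLA⟩ : ∃ L ∈ cls M, (ob Ω (Gn (L.drop 1))).card ≤ (ob Ω (Gn M)).card ∧
      (hd2 L ∈ A → Gn M ≤ A) := by
    by_cases hA : Gn M ≤ A
    · by_contra hcon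
      push Not at hcon
      have h3 : ((cls M).filter fun L => ¬ (ob Ω (Gn (L.drop 1))).card ≤
          (ob Ω (Gn M)).card) = cls M := by
        apply Finset.filter_true_of_mem
        intro L hL' h4
        exact (hcon L hL' h4).2 hA
      rw [h3] at h2
      linarith
    · have h3 := thm_Dch thm_Gnv M A hA
      have h3' : (((cls M).filter fun L => hd2 L ∈ A).card : ℝ) ≤ 3 / 4 * (cls M).card := by
        have h4 : (4 * ((cls M).filter fun L => hd2 L ∈ A).card : ℝ) ≤ 3 * (cls M).card := by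
          exact_mod_cast h3
        linarith
      by_contra hcon
      push Not at hcon
      have h4 : cls M ⊆ ((cls M).filter fun L => ¬ (ob Ω (Gn (L.drop 1))).card ≤
          (ob Ω (Gn M)).card) ∪ ((cls M).filter fun L => hd2 L ∈ A) := by
        intro L hL'
        rw [Finset.mem_union, Finset.mem_filter, Finset.mem_filter]
        by_cases h5 : (ob Ω (Gn (L.drop 1))).card ≤ (ob Ω (Gn M)).card
        · exact Or.inr ⟨hL', (hcon L hL' h5).1⟩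
        · exact Or.inl ⟨hL', h5⟩
      have h5 := (Finset.card_le_card h4).trans (Finset.card_union_le _ _)
      have h6 : ((cls M).card : ℝ) ≤ (((cls M).filter fun L => ¬ (ob Ω (Gn (L.drop 1))).card ≤
          (ob Ω (Gn M)).card).card : ℝ) + (((cls M).filter fun L => hd2 L ∈ A).card : ℝ) := by
        exact_mod_cast h5
      linarith
  rw [mem_cls] at hLc
  obtain ⟨B', hB', hpr⟩ := hL f B L (by rw [← hM]; exact hLc)
  have hl' : B'.length = B.length := hB'.length_eq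
  obtain ⟨p, B₁, rfl⟩ : ∃ p B₁, B' = p :: B₁ := by
    cases B' with
    | nil =>
      rw [List.length_nil] at hl'
      omega
    | cons p B₁ => exact ⟨p, B₁, rfl⟩
  have e : L = (f p.1.1, f p.1.2) :: pr f B₁ := by
    rw [← hpr]
    rfl
  refine ⟨p, B₁, hB', ?_, ?_⟩
  · rw [e] at hLn
    exact hLn
  · rw [e] at hLA
    exact hLA

end uni

section
variable {Γ : Type} [Group Γ]

/-- the orbit of the base coset -/
private def oo (Λ : Subgroup Γ) (C : Subgroup Γ) : Set (Γ ⧸ Λ) := (fun h : Γ => (h : Γ ⧸ Λ)) '' C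

private theorem oo_mono {Λ C D : Subgroup Γ} (h : C ≤ D) : oo Λ C ⊆ oo Λ D :=
  Set.image_mono h

/-- the group preserves its orbit -/
private theorem le_stab (Λ C : Subgroup Γ) : C ≤ MulAction.stabilizer Γ (oo Λ C) := by
  have key : ∀ z ∈ C, ∀ ω ∈ oo Λ C, z • ω ∈ oo Λ C := by
    rintro z hz _ ⟨h, hh, rfl⟩
    exact ⟨z * h, C.mul_mem hz hh, rfl⟩
  intro z hz
  rw [MulAction.mem_stabilizer_iff]
  refine Set.Subset.antisymm ?_ ?_
  · rintro _ ⟨ω, hω, rfl⟩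
    exact key z hz ω hω
  · intro ω hω
    exact ⟨z⁻¹ • ω, key z⁻¹ (C.inv_mem hz) ω hω, smul_inv_smul z ω⟩

private theorem oo_eq_of_orb {Λ C D : Subgroup Γ} (hCD : C ≤ D) (h : Orb Λ C D) :
    oo Λ C = oo Λ D := by
  refine Set.Subset.antisymm (oo_mono hCD) ?_
  rintro _ ⟨g, hg, rfl⟩
  obtain ⟨x, hx, hxg⟩ := h g hg
  exact ⟨x, hx, QuotientGroup.eq.2 hxg⟩

/-- lists of killed handles are lists in `N` -/
theorem exists_mapH (N : Subgroup Γ) (B : List (Hd Γ 1)) (hB : ∀ h ∈ B, Kl N h) :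
    ∃ BN : List (Hd N 1), SpQ.mapH N.subtype BN = B := by
  induction B with
  | nil => exact ⟨[], rfl⟩
  | cons h B ih =>
    obtain ⟨BN, hBN⟩ := ih fun q hq => hB q (List.mem_cons_of_mem _ hq)
    have h1 := hB h List.mem_cons_self
    refine ⟨((⟨h.1.1, h1.1⟩, ⟨h.1.2, h1.2⟩), h.2) :: BN, ?_⟩
    rw [← hBN]
    rfl

theorem E_mapH {Δ : Type} [Group Δ] (f : Δ →* Γ) (B : List (Hd Δ 1)) :
    SpQ.E (SpQ.mapH f B) = (SpQ.E B).map f := by
  unfold SpQ.E SpQ.mapH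
  rw [MonoidHom.map_closure]
  congr 1
  ext q
  constructor
  · rintro ⟨p, hp, h⟩
    obtain ⟨b, hb, rfl⟩ := List.mem_map.1 hp
    rcases h with rfl | rfl
    · exact ⟨b.1.1, ⟨b, hb, Or.inl rfl⟩, rfl⟩
    · exact ⟨b.1.2, ⟨b, hb, Or.inr rfl⟩, rfl⟩
  · rintro ⟨z, ⟨b, hb, h⟩, rfl⟩
    refine ⟨_, List.mem_map.2 ⟨b, hb, rfl⟩, ?_⟩
    rcases h with rfl | rfl
    · exact Or.inl rfl
    · exact Or.inr rfl

/-- the law for a list of killed handles: a letter `z` with `x z x⁻¹` not in the stabiliser of the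
set `O`, and the rest is transitive on the orbit of the base coset -/
theorem uniN (hL : St_Lgw) (N Λ : Subgroup Γ) [Λ.FiniteIndex] (ℓ : ℕ)
    (B : List (Hd Γ 1)) (hind : Λ.relIndex N ≤ 2 ^ ℓ) (hlen : 100 * (ℓ + 1) ≤ B.length)
    (hk : ∀ h ∈ B, Kl N h) (O : Set (Γ ⧸ Λ)) :
    ∃ (p : Hd Γ 1) (B₁ : List (Hd Γ 1)), WReach B (p :: B₁) ∧ Orb Λ (SpQ.E B₁) (SpQ.E B) ∧
      (p.1.2 ∈ MulAction.stabilizer Γ O → SpQ.E B ≤ MulAction.stabilizer Γ O) := by
  obtain ⟨BN, hBN⟩ := exists_mapH N B hk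
  have hfi : (Λ.subgroupOf N).FiniteIndex := inferInstance
  have : Fintype (Γ ⧸ Λ) := Fintype.ofFinite _
  have : Fintype (N ⧸ Λ.subgroupOf N) := Fintype.ofFinite _
  let act : MulAction (Equiv.Perm (Γ ⧸ Λ) × Equiv.Perm (N ⧸ Λ.subgroupOf N))
      (N ⧸ Λ.subgroupOf N) := MulAction.compHom _
        (MonoidHom.snd (Equiv.Perm (Γ ⧸ Λ)) (Equiv.Perm (N ⧸ Λ.subgroupOf N)))
  obtain ⟨f, hf⟩ : ∃ f : N →* Equiv.Perm (Γ ⧸ Λ) × Equiv.Perm (N ⧸ Λ.subgroupOf N),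
      f = ((MulAction.toPermHom Γ (Γ ⧸ Λ)).comp N.subtype).prod
        (MulAction.toPermHom N (N ⧸ Λ.subgroupOf N)) := ⟨_, rfl⟩
  have hf1 : ∀ n : N, (f n).1 = MulAction.toPermHom Γ (Γ ⧸ Λ) n := by
    intro n
    rw [hf]
    rfl
  have hf2 : ∀ (n : N) (ω : N ⧸ Λ.subgroupOf N), f n • ω = n • ω := by
    intro n ω
    rw [hf]
    rfl
  obtain ⟨A, hA⟩ : ∃ A : Subgroup (Equiv.Perm (Γ ⧸ Λ) × Equiv.Perm (N ⧸ Λ.subgroupOf N)),
      A = (MulAction.stabilizer (Equiv.Perm (Γ ⧸ Λ)) O).comap (MonoidHom.fst _ _) := ⟨_, rfl⟩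
  have hfA : ∀ n : N, f n ∈ A ↔ (n : Γ) ∈ MulAction.stabilizer Γ O := by
    intro n
    rw [hA, Subgroup.mem_comap, MulAction.mem_stabilizer_iff, MulAction.mem_stabilizer_iff]
    show (f n).1 • O = O ↔ _
    rw [hf1]
    rfl
  obtain ⟨p, B₁, h1, h2, h3⟩ := uni hL f ℓ BN (Ω := N ⧸ Λ.subgroupOf N) (by
    rw [← Nat.card_eq_fintype_card]
    exact hind) (by
    rw [← hBN] at hlen
    unfold SpQ.mapH at hlen
    rwa [List.length_map] at hlen) A
  have h4 := SpQ.mapH_reach N.subtype h1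
  rw [hBN] at h4
  refine ⟨((p.1.1, p.1.2), p.2), SpQ.mapH N.subtype B₁, h4, ?_, ?_⟩
  · -- orbits
    have hE : SpQ.E B₁ ≤ SpQ.E BN := by
      rw [← h1.E_eq, SpQ.E_cons]
      exact le_sup_right
    unfold no at h2
    rw [Gn_pr, Gn_pr] at h2
    have h5 := orb_eq_of_card (Subgroup.map_mono hE) h2 ((1 : N) : N ⧸ Λ.subgroupOf N)
    intro g hg
    rw [← hBN, E_mapH] at hg
    obtain ⟨n, hn, rfl⟩ := Subgroup.mem_map.1 hg
    have h6 : ((n : N) : N ⧸ Λ.subgroupOf N) ∈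
        orb ((SpQ.E BN).map f) ((1 : N) : N ⧸ Λ.subgroupOf N) := by
      refine ⟨f n, Subgroup.mem_map_of_mem f hn, ?_⟩
      rw [hf2]
      show ((n * 1 : N) : N ⧸ Λ.subgroupOf N) = (n : N ⧸ Λ.subgroupOf N)
      rw [mul_one]
    obtain ⟨a, ha, h7⟩ := h5 h6
    obtain ⟨h, hh, rfl⟩ := Subgroup.mem_map.1 ha
    rw [hf2] at h7
    have h8 : ((h * 1 : N) : N ⧸ Λ.subgroupOf N) = (n : N ⧸ Λ.subgroupOf N) := h7
    rw [mul_one] at h8
    refine ⟨h, ?_, ?_⟩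
    · rw [E_mapH]
      exact Subgroup.mem_map_of_mem _ hh
    · have h9 := QuotientGroup.eq.1 h8
      rw [Subgroup.mem_subgroupOf] at h9
      exact h9
  · intro h5
    have h6 := h3 ((hfA p.1.2).2 h5)
    rw [Gn_pr] at h6
    rw [← hBN, E_mapH]
    rintro _ ⟨n, hn, rfl⟩
    exact (hfA n).1 (h6 (Subgroup.mem_map_of_mem f hn))

/-- **RedN.**  After moves the killed handles are transitive on the orbit of `N`. -/
theorem redN (hL : St_Lgw) (N Λ : Subgroup Γ) [N.Normal] [Λ.FiniteIndex] (ℓ : ℕ)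
    (X₀ : List (It Γ 1)) (B₀ : List (Hd Γ 1)) (hind : Λ.relIndex N ≤ 2 ^ ℓ)
    (hk₀ : ∀ h ∈ B₀, Kl N h) (hlen : 100 * (ℓ + 1) ≤ B₀.length) (hgen₀ : GI (X₀ ++ hl B₀) = ⊤) :
    ∃ (X' : List (It Γ 1)) (B' : List (Hd Γ 1)), IReach (X₀ ++ hl B₀) (X' ++ hl B') ∧
      B'.length = B₀.length ∧ (∀ h ∈ B', Kl N h) ∧ Orb Λ (SpQ.E B') N := by
  have hC : LGC.St_Cnj := LGC.thm_Cnj LGC.thm_Pas
  -- a reachable system with the largest orbit
  let S : Set (List (It Γ 1) × List (Hd Γ 1)) :=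
    {s | IReach (X₀ ++ hl B₀) (s.1 ++ hl s.2) ∧ s.2.length = B₀.length ∧ ∀ h ∈ s.2, Kl N h}
  obtain ⟨⟨X, B⟩, ⟨hr, hl0, hk⟩, hmax⟩ := (measure fun s : List (It Γ 1) × List (Hd Γ 1) =>
    Nat.card (Γ ⧸ Λ) - (oo Λ (SpQ.E s.2)).ncard).wf.has_min S
      ⟨(X₀, B₀), IReach.refl _, rfl, hk₀⟩
  dsimp only at hr hl0 hk
  have hmax' : ∀ (X' : List (It Γ 1)) (B' : List (Hd Γ 1)), IReach (X ++ hl B) (X' ++ hl B') →
      B'.length = B.length → (∀ h ∈ B', Kl N h) →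
      (oo Λ (SpQ.E B')).ncard ≤ (oo Λ (SpQ.E B)).ncard := by
    intro X' B' h1 h2 h2'
    have h3 : ¬ Nat.card (Γ ⧸ Λ) - (oo Λ (SpQ.E B')).ncard <
        Nat.card (Γ ⧸ Λ) - (oo Λ (SpQ.E B)).ncard :=
      hmax (X', B') ⟨hr.trans h1, h2.trans hl0, h2'⟩
    have h4 : ∀ C : Subgroup Γ, (oo Λ C).ncard ≤ Nat.card (Γ ⧸ Λ) := by
      intro C
      rw [← Set.ncard_univ]
      exact Set.ncard_le_ncard (Set.subset_univ _) (Set.toFinite _)
    have h5 := h4 (SpQ.E B')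
    have h6 := h4 (SpQ.E B)
    omega
  have hgen : GI (X ++ hl B) = ⊤ := by
    rw [hr.GI_eq, hgen₀]
  obtain ⟨T, hT⟩ : ∃ T, T = MulAction.stabilizer Γ (oo Λ (SpQ.E B)) := ⟨_, rfl⟩
  have hBT : SpQ.E B ≤ T := by
    rw [hT]
    exact le_stab Λ _
  have hlen' : 100 * (ℓ + 1) ≤ B.length := by
    rw [hl0]
    exact hlen
  have key : ∀ (X' : List (It Γ 1)) (p : Hd Γ 1) (B₁ : List (Hd Γ 1)),
      IReach (X ++ hl B) (X' ++ hl (p :: B₁)) → B₁.length + 1 = B.length → Kl N p →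
      (∀ h ∈ B₁, Kl N h) → oo Λ (SpQ.E B₁) = oo Λ (SpQ.E B) → SpQ.E (p :: B₁) ≤ T := by
    intro X' p B₁ h1 h2 h3 h4 h5
    have h6 := hmax' X' (p :: B₁) h1 (by rw [List.length_cons, h2]) (by
      intro h hh
      rcases List.mem_cons.1 hh with rfl | hh
      · exact h3
      · exact h4 h hh)
    have h7 : SpQ.E B₁ ≤ SpQ.E (p :: B₁) := by
      rw [SpQ.E_cons]
      exact le_sup_right
    have h8 : oo Λ (SpQ.E B) = oo Λ (SpQ.E (p :: B₁)) := by
      refine Set.eq_of_subset_of_ncard_le ?_ h6 (Set.toFinite _)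
      rw [← h5]
      exact oo_mono h7
    rw [hT, h8]
    exact le_stab Λ _
  have hkl : ∀ (p : Hd Γ 1) (B₁ : List (Hd Γ 1)), WReach B (p :: B₁) →
      Kl N p ∧ (∀ h ∈ B₁, Kl N h) ∧ SpQ.E B₁ ≤ SpQ.E B ∧ B₁.length + 1 = B.length := by
    intro p B₁ h1
    have h2 : SpQ.E (p :: B₁) ≤ N := by
      rw [h1.E_eq, ← LGC.Kl_list]
      exact hk
    rw [← LGC.Kl_list] at h2
    refine ⟨h2 p List.mem_cons_self, fun h hh => h2 h (List.mem_cons_of_mem _ hh), ?_, ?_⟩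
    · rw [← h1.E_eq, SpQ.E_cons]
      exact le_sup_right
    · rw [← h1.length_eq, List.length_cons]
  -- the conjugates of the handles
  have hcj : ∀ v ∈ GI X, ∀ z ∈ SpQ.E B, v⁻¹ * z * v ∈ T := by
    intro v hv
    obtain ⟨O, hO⟩ : ∃ O : Set (Γ ⧸ Λ), O = v • oo Λ (SpQ.E B) := ⟨_, rfl⟩
    have hmem : ∀ z : Γ, z ∈ MulAction.stabilizer Γ O ↔ v⁻¹ * z * v ∈ T := by
      intro z
      rw [hT, hO, MulAction.mem_stabilizer_iff, MulAction.mem_stabilizer_iff, mul_smul, mul_smul,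
        inv_smul_eq_iff]
    obtain ⟨p, B₁, h1, h2, h3⟩ := uniN hL N Λ ℓ B hind hlen' hk O
    obtain ⟨h4, h5, h6, h7⟩ := hkl p B₁ h1
    have h8 : ∀ w ∈ GI X, SpQ.E [cj1 w p] ≤ T := by
      refine hC Γ 1 X p T ?_
      intro X' w hw
      have e1 : IReach (X ++ hl B) (X ++ hl (p :: B₁)) := (IReach.of_wreach h1).left X
      have e2 := hw.right (hl B₁)
      have e3 : IReach (X ++ hl B) (X' ++ hl (cj1 w p :: B₁)) := by
        refine e1.trans ?_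
        rw [LGC.hl_cons, LGC.hl_cons]
        simpa using e2
      have e4 := key X' (cj1 w p) B₁ e3 h7 (h4.cj1 w) h5 (oo_eq_of_orb h6 h2)
      rw [SpQ.E_cons] at e4
      exact le_trans le_sup_left e4
    have h9 := (SpQ.E_singleton_le.1 (h8 v hv)).2
    have h10 := h3 ((hmem p.1.2).2 h9)
    exact fun z hz => (hmem z).1 (h10 hz)
  -- the group of the conjugates
  obtain ⟨J, hJn, hJT, hJN, hJE⟩ : ∃ J : Subgroup Γ, J.Normal ∧ J ≤ T ∧ J ≤ N ∧
      SpQ.E B ≤ J := by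
    refine ⟨_, LGC.Gno_normal X B hgen, ?_, ?_, ?_⟩
    · rw [Subgroup.closure_le]
      rintro z ⟨v, hv, q, hq, hz⟩
      rcases hz with rfl | rfl
      · exact hcj v hv _ (SpQ.fst_mem_E hq)
      · exact hcj v hv _ (SpQ.snd_mem_E hq)
    · rw [Subgroup.closure_le]
      rintro z ⟨v, -, q, hq, hz⟩
      have h3 := (hk q hq).cj1 v
      rcases hz with rfl | rfl
      · exact h3.1
      · exact h3.2
    · rw [SpQ.E_le]
      intro q hq
      constructor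
      · exact Subgroup.subset_closure ⟨1, Subgroup.one_mem _, q, hq, Or.inl (by group)⟩
      · exact Subgroup.subset_closure ⟨1, Subgroup.one_mem _, q, hq, Or.inr (by group)⟩
  -- slides
  have h1 : N ⊓ GI X ≤ T := by
    intro u hu
    obtain ⟨huN, huX⟩ := Subgroup.mem_inf.1 hu
    obtain ⟨⟨⟨a, b⟩, o⟩, B₁, g1, g2, -⟩ := uniN hL N Λ ℓ B hind hlen' hk ∅
    obtain ⟨g4, g5, g6, g7⟩ := hkl _ B₁ g1
    have hEJ : SpQ.E (((a, b), o) :: B₁) ≤ J := by
      rw [g1.E_eq]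
      exact hJE
    have ha : a ∈ J := hEJ (SpQ.fst_mem_E (h := ((a, b), o)) List.mem_cons_self)
    have hb : b ∈ J := hEJ (SpQ.snd_mem_E (h := ((a, b), o)) List.mem_cons_self)
    have hfa : QuotientGroup.mk' J a = 1 := (QuotientGroup.eq_one_iff a).2 ha
    have hfb : QuotientGroup.mk' J b = 1 := (QuotientGroup.eq_one_iff b).2 hb
    obtain ⟨X', t, hX'⟩ := LGC.thm_Slo (Γ ⧸ J) 1 (X.map (imap (QuotientGroup.mk' J))) 1 o
      (QuotientGroup.mk' J u) (LGC.Gno_map _ X huX)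
    have e1 : (X ++ [Sum.inl ((a, b), o)]).map (imap (QuotientGroup.mk' J)) =
        X.map (imap (QuotientGroup.mk' J)) ++ [Sum.inl (((1 : Γ ⧸ J), (1 : Γ ⧸ J)), o)] := by
      rw [List.map_append]
      simp only [List.map_cons, List.map_nil, imap]
      rw [hfa, hfb]
    rw [← e1] at hX'
    obtain ⟨X'', hr', hX''⟩ := LGC.thm_Lif Γ (Γ ⧸ J) 1 _ _ _ hX'
    obtain ⟨X₁, s, rfl, -, hs⟩ := List.map_eq_append_iff.1 hX''
    obtain ⟨i, s', rfl, hi, hs'⟩ := List.map_eq_cons_iff.1 hs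
    rw [List.map_eq_nil_iff] at hs'
    subst hs'
    obtain ⟨a', y, rfl, ha', hy⟩ := LGC.Lif_inl _ i _ _ _ hi
    have ha'J : a' ∈ J := (QuotientGroup.eq_one_iff a').1 ha'
    have hyJ : u⁻¹ * y ∈ J := by
      rw [mul_one] at hy
      exact (QuotientGroup.eq (s := J)).1 hy.symm
    have hyN : y ∈ N := by
      have := N.mul_mem huN (hJN hyJ)
      exact LGP.mem_word (by group) this
    have h3 : IReach (X ++ hl B) (X₁ ++ hl (((a', y), (o.1, t)) :: B₁)) := by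
      have r0 : IReach (X ++ hl B) (X ++ hl (((a, b), o) :: B₁)) := (IReach.of_wreach g1).left X
      have r1 := hr'.right (hl B₁)
      refine r0.trans ?_
      rw [LGC.hl_cons, LGC.hl_cons]
      simpa [hl] using r1
    have h4 := key X₁ _ B₁ h3 g7 ⟨hJN ha'J, hyN⟩ g5 (oo_eq_of_orb g6 g2)
    have hyT : y ∈ T := h4 (SpQ.snd_mem_E (h := ((a', y), (o.1, t))) List.mem_cons_self)
    have := T.mul_mem hyT (T.inv_mem (hJT hyJ))
    exact LGP.mem_word (by group) this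
  have h5 : N ⊓ GI (X ++ hl B) ≤ T := by
    refine LGC.grp X B hk T h1 ?_
    intro v hv q hq
    rw [SpQ.E_singleton_le]
    exact ⟨hcj v hv _ (SpQ.fst_mem_E hq), hcj v hv _ (SpQ.snd_mem_E hq)⟩
  rw [hgen, inf_top_eq] at h5
  refine ⟨X, B, hr, hl0, hk, ?_⟩
  intro g hg
  have h6 : g ∈ MulAction.stabilizer Γ (oo Λ (SpQ.E B)) := by
    rw [← hT]
    exact h5 hg
  rw [MulAction.mem_stabilizer_iff] at h6
  have h7 : ((g : Γ) : Γ ⧸ Λ) ∈ oo Λ (SpQ.E B) := by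
    rw [← h6]
    refine ⟨((1 : Γ) : Γ ⧸ Λ), ⟨1, Subgroup.one_mem _, rfl⟩, ?_⟩
    show ((g * 1 : Γ) : Γ ⧸ Λ) = _
    rw [mul_one]
  obtain ⟨x, hx, hxg⟩ := h7
  exact ⟨x, hx, QuotientGroup.eq.1 hxg⟩

end

end Pool.Agent.LGU
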