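import Pool.Agent.PWG.St
import Pool.Agent.ARH.St
import Pool.Agent.ARH.MvA

/-!
# Arbitrary subgroups of small index, lists of handles: definitions (helper1, for MP_0707f5_ag)

Bridge between the lists of pairs of campaigns PWE, PWG (moves `LG`, uniform law) and the lists of handles
`SpQ.Hd Γ 1` (moves `SpQ.WReach`).
-/

set_option autoImplicit false

namespace Pool.Agent.LGU

open Pool.Agent.PW Pool.Agent.PWM Pool.Agent.PWB Pool.Agent.PWX Pool.Agent.PWF Pool.Agent.PWL
  Pool.Agent.PWY Pool.Agent.PWE Pool.Agent.PWG Pool.Agent.ARH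
open SpQ (Hd WStep WReach WExt Good bd cj1)
open scoped Classical

/-- The pairs of the values of the handles of a list. -/
def pr {Γ Q : Type} [Group Γ] [Group Q] (f : Γ →* Q) (B : List (Hd Γ 1)) : List (Q × Q) :=
  B.map fun h => (f h.1.1, f h.1.2)

/-- The number of the orbits of the group of a list of pairs. -/
noncomputable def no {G : Type} [Group G] (Ω : Type) [MulAction G Ω] [Fintype Ω]
    (U : List (G × G)) : ℕ := (ob Ω (Gn U)).card

/-- The handles of the middle part of `L` which leave, for the mask `c` (`true`: stays). -/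
def lv {G : Type} [Group G] (a m : ℕ) (c : Fin m → Bool) (L : List (G × G)) : List (G × G) :=
  (mvt (List.ofFn c) ((L.drop a).take m)).1

/-- `x` is a product of letters of a list of handles which is reached from the standard list. -/
def Sg {g : ℕ} (x : F g 0) : Prop :=
  ∃ L' : List (F g 0 × F g 0), LG (lst (MonoidHom.id (F g 0)) 0 g) L' ∧
    x ∈ Ds (⊤ : Subgroup (F g 0)) (L'.map Prod.snd)

/-- The group generated by the elements of `K` with the property `Sg`. -/
def Lg {g : ℕ} (K : Subgroup (F g 0)) : Subgroup (F g 0) := Subgroup.closure {x | x ∈ K ∧ Sg x}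

end Pool.Agent.LGU
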