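import Pool.Agent.LGU.St
import Pool.Agent.ARH.Bmv
import Pool.Agent.LGU.Law
import Pool.Agent.LGU.Avd

/-!
# LGU / Mk2: one list and masks for all sets of places (helper35)
-/

set_option autoImplicit false

namespace Pool.Agent.LGU

open Pool.Agent.PW Pool.Agent.PWM Pool.Agent.PWB Pool.Agent.PWX Pool.Agent.PWF Pool.Agent.PWL
  Pool.Agent.PWY Pool.Agent.PWE Pool.Agent.PWG Pool.Agent.ARH
open SpQ (Hd WStep WReach WExt Good bd cj1)
open Pool.Agent.EKH (Orb pos mem_pos)
open scoped Classical

section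
variable {G : Type} [Group G] {Ω : Type} [MulAction G Ω]

private theorem sat {A B : Subgroup G} (h : A ≤ B) (w : Ω) :
    {w' : Ω | ∃ u ∈ orb A w, ∃ b ∈ B, b • u = w'} = orb B w := by
  ext w'
  constructor
  · rintro ⟨u, ⟨a, ha, rfl⟩, b, hb, rfl⟩
    exact ⟨b * a, B.mul_mem hb (h ha), mul_smul b a w⟩
  · rintro ⟨b, hb, rfl⟩
    exact ⟨w, ⟨1, A.one_mem, one_smul G w⟩, b, hb, rfl⟩

private theorem ob_le [Fintype Ω] {A B : Subgroup G} (h : A ≤ B) :
    (ob Ω B).card ≤ (ob Ω A).card := by
  have e : ob Ω B = (ob Ω A).image fun C => {w' : Ω | ∃ u ∈ C, ∃ b ∈ B, b • u = w'} := by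
    unfold ob
    rw [Finset.image_image]
    refine Finset.image_congr ?_
    intro w _
    exact (sat h w).symm
  rw [e]
  exact Finset.card_image_le

private theorem no_append [Fintype Ω] (X Y : List (G × G)) : no Ω (X ++ Y) ≤ no Ω Y := by
  unfold no
  refine ob_le ?_
  unfold Gn
  refine Subgroup.closure_mono ?_
  rintro q ⟨p, hp, h⟩
  exact ⟨p, List.mem_append_right _ hp, h⟩

end

private theorem pr_append {Γ Q : Type} [Group Γ] [Group Q] (f : Γ →* Q) (A B : List (Hd Γ 1)) :
    pr f (A ++ B) = pr f A ++ pr f B := List.map_append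

private theorem pr_length {Γ Q : Type} [Group Γ] [Group Q] (f : Γ →* Q) (A : List (Hd Γ 1)) :
    (pr f A).length = A.length := List.length_map _

private theorem pr_take {Γ Q : Type} [Group Γ] [Group Q] (f : Γ →* Q) (A : List (Hd Γ 1))
    (n : ℕ) : pr f (A.take n) = (pr f A).take n := List.map_take

private theorem pr_drop {Γ Q : Type} [Group Γ] [Group Q] (f : Γ →* Q) (A : List (Hd Γ 1))
    (n : ℕ) : pr f (A.drop n) = (pr f A).drop n := List.map_drop

private theorem pr_id {Γ Q : Type} [Group Γ] [Group Q] (f : Γ →* Q) (A : List (Hd Γ 1)) :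
    pr f A = (pr (MonoidHom.id Γ) A).map fun p => (f p.1, f p.2) := by
  unfold pr
  rw [List.map_map]
  rfl

theorem thm_Mk2 : St_Mk2 := by
  intro hL hV hW hM hO Γ _ Λ _ ℓ q B hind hlen
  obtain ⟨hV1, hV2, hV3, hV4⟩ := hV
  have : Fintype (Γ ⧸ Λ) := Fintype.ofFinite _
  set f : Γ →* Equiv.Perm (Γ ⧸ Λ) := MulAction.toPermHom Γ (Γ ⧸ Λ) with hf
  have hcard : Fintype.card (Γ ⧸ Λ) ≤ 2 ^ ℓ := by
    rw [← Nat.card_eq_fintype_card]
    exact hind
  obtain ⟨a, ha⟩ : ∃ a, a = q + 12 * (ℓ + 1) := ⟨_, rfl⟩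
  obtain ⟨m, hm⟩ : ∃ m, m = B.length - a - 6 * (ℓ + 1) := ⟨_, rfl⟩
  have hlen2 : a + m + 6 * (ℓ + 1) = B.length := by omega
  obtain ⟨L, hLM, hLQ, hLP⟩ := hM thm_Law thm_Avd (Ω := Γ ⧸ Λ) (pr f B) ℓ q a m hcard (by omega)
    (by rw [pr_length]; exact hlen2)
  obtain ⟨B', hB', hpr⟩ := hL f B L hLM
  have hlB' : B'.length = B.length := hB'.length_eq
  have htd : B'.take (a + m) ++ B'.drop (a + m) = B' := List.take_append_drop _ _
  have hEB : SpQ.E B' = SpQ.E B := hB'.E_eq
  have hE0 : SpQ.E (B'.take (a + m)) ≤ SpQ.E B := by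
    rw [← hEB, ← htd, SpQ.E_append, htd]
    exact le_sup_left
  have hEQ : SpQ.E (B'.drop (a + m)) ≤ SpQ.E B := by
    rw [← hEB, ← htd, SpQ.E_append, htd]
    exact le_sup_right
  have hl0 : (B'.take (a + m)).length = a + m := by
    rw [List.length_take]
    omega
  refine ⟨B'.take (a + m), B'.drop (a + m), by rw [htd]; exact hB', ?_, ?_, ?_⟩
  · rw [List.length_drop]
    unfold k₀
    omega
  · refine hO Λ _ B hEQ ?_
    rw [← hf, pr_drop, hpr]
    exact hLQ
  obtain ⟨L₀, hL₀⟩ : ∃ L₀, L₀ = B'.take (a + m) := ⟨_, rfl⟩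
  rw [← hL₀] at hE0 hl0 ⊢
  intro I hI
  -- the places of the middle part
  let P : Finset (Fin m) := Finset.univ.filter fun i => ⟨a + i, by omega⟩ ∈ I
  have hP : P.card ≤ q := by
    refine le_trans ?_ hI
    refine Finset.card_le_card_of_injOn
      (fun i : Fin m => (⟨a + i, by omega⟩ : Fin L₀.length)) ?_ ?_
    · intro i hi
      exact (Finset.mem_filter.1 hi).2
    · intro i _ j _ hij
      have h1 : a + (i : ℕ) = a + j := by simpa using hij
      exact Fin.ext (by omega)
  obtain ⟨c, hc1, hc2⟩ := hLP P hP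
  -- the mask on the first places
  let c₁ : Fin a → Bool := fun j => decide ((⟨(j : ℕ), by omega⟩ : Fin L₀.length) ∈ I)
  obtain ⟨J₀, A, hJA, hJ₀, hA⟩ := hW (List.ofFn c₁ ++ List.ofFn c) L₀ (by
    rw [List.length_append, List.length_ofFn, List.length_ofFn, hl0])
  have hJlen : J₀.length = (List.ofFn c₁ ++ List.ofFn c).count false := by
    rw [← pr_length (MonoidHom.id Γ) J₀, hJ₀]
    exact (mvt_len _ _ (by
      rw [List.length_append, List.length_ofFn, List.length_ofFn, pr_length, hl0])).2
  have hEL : SpQ.E J₀ ⊔ SpQ.E A = SpQ.E L₀ := by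
    rw [← SpQ.E_append]
    exact hJA.E_eq
  have hEJ : SpQ.E J₀ ≤ SpQ.E B := le_trans (le_trans le_sup_left hEL.le) hE0
  have hEA : SpQ.E A ≤ SpQ.E B := le_trans (le_trans le_sup_right hEL.le) hE0
  refine ⟨A, SpQ.cj (bds A) J₀, hJA.trans (block_left J₀ A), ?_, ?_, ?_⟩
  · -- the chosen places
    rw [SpQ.E_le]
    intro h hh
    obtain ⟨i, hi, rfl⟩ := mem_pos.1 hh
    have hi2 : (i : ℕ) < a + m := by
      have := i.2
      omega
    have hmask : (List.ofFn c₁ ++ List.ofFn c).getD (i : ℕ) false = true := by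
      by_cases hia : (i : ℕ) < a
      · rw [List.getD_append _ _ _ _ (by rw [List.length_ofFn]; exact hia), List.getD_eq_getElem _ _
          (by rw [List.length_ofFn]; exact hia), List.getElem_ofFn]
        show decide _ = true
        rw [decide_eq_true_iff]
        exact hi
      · have h1 : (i : ℕ) - a < m := by omega
        rw [List.getD_append_right _ _ _ _ (by rw [List.length_ofFn]; omega), List.length_ofFn,
          List.getD_eq_getElem _ _ (by rw [List.length_ofFn]; exact h1), List.getElem_ofFn]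
        refine hc1 ⟨(i : ℕ) - a, h1⟩ (Finset.mem_filter.2 ⟨Finset.mem_univ _, ?_⟩)
        have h2 : (⟨a + ((⟨(i : ℕ) - a, h1⟩ : Fin m) : ℕ), by omega⟩ : Fin L₀.length) = i :=
          Fin.ext (by simp only; omega)
        rw [h2]
        exact hi
    have h3 := hV2 (List.ofFn c₁ ++ List.ofFn c) (pr (MonoidHom.id Γ) L₀) i
      (by rw [pr_length]; exact i.2) hmask
    rw [← hA, List.getD_eq_getElem _ _ (by rw [pr_length]; exact i.2)] at h3
    obtain ⟨h', hh', he⟩ := List.mem_map.1 h3
    have e1 : (pr (MonoidHom.id Γ) L₀)[(i : ℕ)]'(by rw [pr_length]; exact i.2) =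
        ((L₀.get i).1.1, (L₀.get i).1.2) := by
      unfold pr
      rw [List.getElem_map]
      rfl
    rw [e1] at he
    have h4 : h'.1.1 = (L₀.get i).1.1 := congrArg Prod.fst he
    have h5 : h'.1.2 = (L₀.get i).1.2 := congrArg Prod.snd he
    rw [← h4, ← h5]
    exact ⟨SpQ.fst_mem_E hh', SpQ.snd_mem_E hh'⟩
  · -- the others are transitive
    refine orb_cj ?_ (hEA (bds_mem A))
    refine hO Λ J₀ B hEJ ?_
    rw [← hf]
    have e1 : pr f J₀ = (mvt (List.ofFn c₁ ++ List.ofFn c) (L.take (a + m))).1 := by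
      rw [pr_id f J₀, hJ₀, ← hpr, ← pr_take, ← hL₀, pr_id f L₀, hV3]
    obtain ⟨u, hu, -⟩ := hV1 (List.ofFn c₁) (List.ofFn c) (L.take a) ((L.drop a).take m) (by
      rw [List.length_ofFn, List.length_take, ← hpr, pr_length]
      omega)
    rw [← List.take_add] at hu
    rw [e1, hu]
    refine le_trans (no_append _ _) ?_
    rw [hV4]
    exact hc2
  · -- the number of the others
    unfold SpQ.cj
    rw [List.length_map, hJlen, List.count_append]
    have h1 : (List.ofFn c₁).count false + (List.ofFn c₁).count true = a := by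
      have h2 := List.length_eq_countP_add_countP (fun x : Bool => x == false) (l := List.ofFn c₁)
      rw [List.length_ofFn] at h2
      have h3 : List.countP (fun x : Bool => ¬ (x == false) = true) (List.ofFn c₁) =
          (List.ofFn c₁).count true := by
        unfold List.count
        refine List.countP_congr fun x _ => ?_
        cases x <;> simp
      unfold List.count at h3 ⊢
      omega
    have h2 : (List.ofFn c₁).count true ≤ q := by
      refine le_trans ?_ hI
      have h3 : (List.ofFn c₁).count true = (Finset.univ.filter fun j : Fin a => c₁ j = true).card := by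
        unfold List.count
        rw [List.countP_eq_length_filter, List.ofFn_eq_map, List.filter_map, List.length_map]
        rw [← List.toFinset_card_of_nodup ((List.nodup_finRange a).filter _)]
        congr 1
        ext j
        simp
      rw [h3]
      refine Finset.card_le_card_of_injOn
        (fun j : Fin a => (⟨(j : ℕ), by omega⟩ : Fin L₀.length)) ?_ ?_
      · intro j hj
        have h4 := (Finset.mem_filter.1 hj).2
        exact of_decide_eq_true h4
      · intro i _ j _ hij
        have h5 : (i : ℕ) = j := by simpa using hij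
        exact Fin.ext h5
    unfold k₀
    omega

end Pool.Agent.LGU
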