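import Pool.Agent.LGU.Defs

/-!
# Arbitrary subgroups of small index: statements (helper1, for MP_0707f5_ag)

For campaign ARH (helper21): at the end `ARH.St_Msk`, `ARH.St_Bsd`, `ARH.St_Red`.  Every `St_XXX` is proved in its own file
`LGU/XXX.lean` as `thm_XXX : St_XXX`.  `k = 1`: the weights of the handles are trivial (`Subsingleton (ZMod 1)`), two handles with the
same pair are equal.

`open scoped Classical` is in force everywhere.
-/

set_option autoImplicit false

namespace Pool.Agent.LGU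

open Pool.Agent.PW Pool.Agent.PWM Pool.Agent.PWB Pool.Agent.PWX Pool.Agent.PWF Pool.Agent.PWL
  Pool.Agent.PWY Pool.Agent.PWE Pool.Agent.PWG Pool.Agent.ARH
open SpQ (Hd WStep WReach WExt Good bd cj1)
open scoped Classical

/-! ### Lists of pairs and lists of handles -/

/-- (Lgw), helper20.  The moves `LG` of the values lift to moves `WReach` of the handles.
Proof.  `n = B.length`, `x i = ((pr f B)[i]?).getD (1, 1)`, `At 0 (pr f B) x`; `LG` gives `y` with `Go 0 n x y`, `At 0 L y`.  Induction on `Go` (`Relation.ReflTransGen`): there is `B'` with `WReach B B'`, `B'.length = n` and the value of `B'[i]` equal to `y i` for `i < n`.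
One `Step`: `swap` at `l` is `WStep.br'` (`B' = u ++ h :: h' :: v`, `u.length = l`), `rot` is `WStep.rot`, `slide` is `WStep.sl'` followed by `WStep.tw'` on the first handle (`(a, c d⁻¹ c⁻¹ b a)` becomes `(a, c d⁻¹ c⁻¹ b)`; `(tv (c, d))⁻¹ = c d⁻¹ c⁻¹`); the weights do not matter. -/
def St_Lgw : Prop := ∀ {Γ Q : Type} [Group Γ] [Group Q] (f : Γ →* Q) (B : List (Hd Γ 1))
  (L : List (Q × Q)), LG (pr f B) L → ∃ B' : List (Hd Γ 1), WReach B B' ∧ pr f B' = L

/-- (Nat) The moves are natural.  Proof.  `At 0`, `LG` for the system of `L`: `Go`, mapped by `f` (induction on `Go`, each `Step` is natural); then `LG` for all places and systems: use the realisation of `Go` as `LG` (PWF/PWX basic facts: a `Go 0 n` of systems gives `LG` of the lists, as in PWY/Base, PWF/Bas; if it is missing prove it: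
a `Step 0 n x y` inside the places `< n` gives `LG` of the two lists of length `n`, because the same step can be done at the places `m + l`). -/
def St_Nat : Prop := ∀ {P Q : Type} [Group P] [Group Q] (f : P →* Q) (L L' : List (P × P)),
  LG L L' → LG (L.map fun p => (f p.1, f p.2)) (L'.map fun p => (f p.1, f p.2))

/-- (Lup) The moves lift along homomorphisms.  Proof.  As `St_Lgw` (with `LG` upstairs in the place of `WReach`). -/
def St_Lup : Prop := ∀ {P Q : Type} [Group P] [Group Q] (f : P →* Q) (L : List (P × P))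
  (M : List (Q × Q)), LG (L.map fun p => (f p.1, f p.2)) M →
  ∃ L' : List (P × P), LG L L' ∧ (L'.map fun p => (f p.1, f p.2)) = M

/-- (Fcd) Products of letters of a list which is reached by the moves are inverses of letters, or `1`.
Proof.  `St_Lgw` for `f = MonoidHom.id Γ`: `J ~ J'`, `pr id J' = L'`.  Induction on the list (for all final parts): `y ∈ Ds ⊤` of the second entries of `p :: T` is in `Ds ⊤ (T.map snd)`, or `y = d * p.2`, `d ∈ Ds ⊤ (T.map snd)`: `eCub` for `p`, `P = []`, `T`: `LG (p :: T) (p' :: P')`, `p'.2 = d * p.2 = y`.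
`St_Lgw` again (`f = id`), in context: `J ~ U ++ q :: P''`, `q.1 = (x, y)`.  Rotate `q` (`WStep.rot`): first entry `y⁻¹`; move it to the right end unchanged (`SpQ.move_right`, in context).  (`x ∈ fc J (-1)`: `∃ y q, WExt J [((x, y), (-1, q))]`.) -/
def St_Fcd : Prop := St_Lgw → ∀ {Γ : Type} [Group Γ] (J : List (Hd Γ 1)) (L' : List (Γ × Γ)),
  LG (pr (MonoidHom.id Γ) J) L' → ∀ y ∈ Ds (⊤ : Subgroup Γ) (L'.map Prod.snd),
  y = 1 ∨ y⁻¹ ∈ SpQ.fc J (-1)

/-! ### Masks (ARH.St_Msk) -/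

/-- (Mvf) More on `mvt` (ARH/MvA).
Proof.  Inductions on the first list of Booleans.  (1) append; the element `u` is the product of the `dd p` of the chosen handles of `L₁`.  (2) the chosen entries.  (3) naturality (`f (dd p) = dd (f p)`, `cj`).  (4) conjugation does not change the number of orbits: `Gn (U.map (cj u))` is conjugate to `Gn U`, `ω ↦ u • ω` maps orbits to orbits. -/
def St_Mvf : Prop :=
  (∀ {G : Type} [Group G] (b₁ b₂ : List Bool) (L₁ L₂ : List (G × G)), b₁.length = L₁.length →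
    ∃ u : G, mvt (b₁ ++ b₂) (L₁ ++ L₂) =
      ((mvt b₁ L₁).1 ++ (mvt b₂ L₂).1.map (cj u), (mvt b₁ L₁).2 ++ (mvt b₂ L₂).2) ∧
      ∀ A : Subgroup G, (∀ p ∈ L₁, p.1 ∈ A ∧ p.2 ∈ A) → u ∈ A) ∧
  (∀ {G : Type} [Group G] (b : List Bool) (L : List (G × G)) (i : ℕ), i < L.length →
    b.getD i false = true → L.getD i (1, 1) ∈ (mvt b L).2) ∧
  (∀ {G H : Type} [Group G] [Group H] (f : G →* H) (b : List Bool) (L : List (G × G)),
    mvt b (L.map fun p => (f p.1, f p.2)) =
      ((mvt b L).1.map fun p => (f p.1, f p.2), (mvt b L).2.map fun p => (f p.1, f p.2))) ∧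
  ∀ {G : Type} [Group G] {Ω : Type} [MulAction G Ω] [Fintype Ω] (u : G) (U : List (G × G)),
    no Ω (U.map (cj u)) = no Ω U

/-- (Law) The law of the handles which leave.
Proof.  `bs = replicate a true ++ ofFn c ++ replicate (|M| - a - m) true`: by `St_Mvf` (1) `(mvt bs L).1 = (lv a m c L).map (cj u)`, so (`St_Mvf` (4)) the condition is `P (mvt bs L).1` with `P U = ¬ no Ω U ≤ no Ω M`; `mvt_law` and `thm_Orb` (PWE/Orb; `k = bs.count false = (ofFn c).count false`). -/
def St_Law : Prop := St_Mvf → ∀ {G : Type} [Group G] [Fintype G] {Ω : Type} [Fintype Ω]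
  [MulAction G Ω] (M : List (G × G)) (a m : ℕ) (c : Fin m → Bool), a + m ≤ M.length →
  (((cls M).filter fun L => ¬ no Ω (lv a m c L) ≤ no Ω M).card : ℝ) ≤
    (7 / 8) ^ (List.ofFn c).count false * Fintype.card Ω * (cls M).card

/-- (Avd) Masks which avoid a set.
Proof.  (1) the masks which are `true` on `P` are `2 ^ (m - |P|)` in number (`Fintype.piFinset (fun i => if i ∈ P then {true} else univ)`), more than `|N|`.  (2) `(List.ofFn c).count false = ∑ i, if c i then 0 else 1`, the summand is `∏ i, (if c i then 1 else 7 / 8)`, and the sum over `c` is `∏ i, (1 + 7 / 8)` (`Finset.prod_univ_sum`, `Fintype.piFinset_univ`). -/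
def St_Avd : Prop :=
  (∀ (m q : ℕ) (N : Finset (Fin m → Bool)) (P : Finset (Fin m)), P.card ≤ q →
    N.card * 2 ^ q < 2 ^ m → ∃ c : Fin m → Bool, c ∉ N ∧ ∀ i ∈ P, c i = true) ∧
  ∀ m : ℕ, ∑ c : Fin m → Bool, ((7 : ℝ) / 8) ^ (List.ofFn c).count false = (15 / 8) ^ m

/-- (Mcl) One list for all sets of places.
Proof.  `C = |cls M|`, `d = |Ω| ≤ 2 ^ l`, `m = |M| - k₀ - a`.  For `L ∈ cls M` let `N L` be the set of the masks `c` with `¬ no Ω (lv a m c L) ≤ no Ω M`.  `St_Law`, `St_Avd` (2): `∑_L |N L| ≤ (15/8)^m d C`.  So `|N L| ≥ 2 (15/8)^m d` for at most `C / 2` lists (if `d ≥ 1`; `d = 0` is trivial: `no` is `0`), and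
`¬ no Ω (L.drop (|M| - k₀)) ≤ no Ω M` for at most `(7/8)^k₀ d C < C / 2` lists (`thm_Orb` for `k₀`, `thm_Shf` with the block at the right end; `(7/8)^6 < 1/2`, `k₀ = 6 (l + 1)`).  Some `L` is in neither set.  `|N L| 2^q < 2 (15/8)^m 2^l 2^q ≤ 2^m`, because `(16/15)^12 ≥ 2`, `m ≥ 12 (q + l + 1)`: `St_Avd` (1). -/
def St_Mcl : Prop := St_Law → St_Avd → ∀ {G : Type} [Group G] [Fintype G] {Ω : Type}
  [Fintype Ω] [MulAction G Ω] (M : List (G × G)) (l q a m : ℕ),
  Fintype.card Ω ≤ 2 ^ l → 12 * (q + l + 1) ≤ m → a + m + 6 * (l + 1) = M.length →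
  ∃ L, LG M L ∧ no Ω (L.drop (a + m)) ≤ no Ω M ∧
    ∀ P : Finset (Fin m), P.card ≤ q →
      ∃ c : Fin m → Bool, (∀ i ∈ P, c i = true) ∧ no Ω (lv a m c L) ≤ no Ω M

/-- (Orn) The number of orbits and the orbit of the base coset.
Proof.  `f = MulAction.toPermHom Γ (Γ ⧸ Λ)`: `Gn (pr f B)` is the image of `SpQ.E B`, so the orbits are those of `SpQ.E B`.  `E U ≤ E B`: every orbit of `E B` is a union of orbits of `E U` (the map of the orbits is onto); if there are not more orbits of `E U` it is injective, so the orbits are equal; for `g ∈ E B` the coset `g Λ` is in the orbit of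
`Λ` under `E U`: `h • Λ = g • Λ`, `h⁻¹ * g ∈ Λ`. -/
def St_Orn : Prop := ∀ {Γ : Type} [Group Γ] (Λ : Subgroup Γ) [Fintype (Γ ⧸ Λ)]
  (U B : List (Hd Γ 1)), SpQ.E U ≤ SpQ.E B →
  no (Γ ⧸ Λ) (pr (MulAction.toPermHom Γ (Γ ⧸ Λ)) U) ≤
    no (Γ ⧸ Λ) (pr (MulAction.toPermHom Γ (Γ ⧸ Λ)) B) → Pool.Agent.EKH.Orb Λ (SpQ.E U) (SpQ.E B)

/-- (Mvw) The splitting by a mask, for handles (any group).
Proof.  Induction on `b`.  `false`: `WReach.left [p]`.  `true`: `L = p :: T`, `T ~ J ++ A`; `p :: (J ++ A) ~ J' ++ p :: A` by `SpQ.move_right` (in context): `J' = SpQ.cj (bd p)⁻¹ J`, the pairs of `J'` are those of `J` conjugated by `bd p = dd` of the pair of `p`. -/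
def St_Mvw : Prop := ∀ {Γ : Type} [Group Γ] (b : List Bool) (L : List (Hd Γ 1)),
  b.length = L.length → ∃ J A : List (Hd Γ 1), WReach L (J ++ A) ∧
    pr (MonoidHom.id Γ) J = (mvt b (pr (MonoidHom.id Γ) L)).1 ∧
    pr (MonoidHom.id Γ) A = (mvt b (pr (MonoidHom.id Γ) L)).2

/-- (Msk) **Masks.**
Proof.  `n = |B|`, `Ω = Γ ⧸ Λ`, `f = MulAction.toPermHom Γ Ω`, `M = pr f B`, `a = q + 12 (ℓ + 1)` (the reserve; `2 k₀ = 12 (ℓ + 1)`), `m = n - a - 6 (ℓ + 1) ≥ 12 (q + ℓ + 1)`.  `St_Mcl`: `L`; `St_Lgw`: `B ~ B'`, `pr f B' = L`; `L₀ = B'.take (a + m)`, `Q = B'.drop (a + m)`; `Orb` for `Q` by `St_Orn`.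
For `I`: `P` = the places of `I` which are `≥ a`, shifted by `a`; `c` from `St_Mcl`.  On the first `a` places take a mask `c₁` which is `true` on `I` and `false` at `2 k₀` other places (at least `a - q = 2 k₀` places are not in `I`).  `b = c₁ ++ ofFn c`.  `St_Mvw` for `b`, `L₀`: `L₀ ~ J₀ ++ A`.  Move `A` to the left over `J₀`, unchanged (`SpQ.move_block` or its mirror): `J₀ ++ A ~ A ++ J`, `J = J₀` conjugated by one element of `E A ≤ E B`.
`A` contains the handles at the places of `I` (`St_Mvf` (2)); `|J| ≥ 2 k₀` (`mvt_len`, count of `false` in `c₁`).  `Orb`: the values of `J₀` are a list which contains a conjugate of `lv a m c L` (`St_Mvf` (1), (3)), so `no` of them is at most `no Ω M`; conjugation by an element of `E B` does not change this; `St_Orn`. -/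
def St_Mk2 : Prop := St_Lgw → St_Mvf → St_Mvw → St_Mcl → St_Orn → ARH.St_Msk

/-! ### Letters generate (ARH.St_Bsd) -/

/-- (Blg) Three blocks, with moves.  Proof.  `n = 0`: the list of all handles generates `F g 0`, so `Tr (F g 0 ⧸ K) (Gn (lst (pK K) 0 g))` (no `St_Red`).  `thm_Pos` (PWE): `L` with `LG (lst (pK K) 0 g) L` and the three `Jn`.  `St_Lup` for `f = pK K`: `LG (lst id 0 g) L'` with values `L`.  `PWG.thm_Reb` for `ρ = id`:
`φ ∈ MB g 0` with `lst φ 0 g = L'`.  Then as in PWG/Blo. -/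
def St_Blg : Prop := St_Lup → ∀ {g : ℕ} (K : Subgroup (F g 0)), K.index ≠ 0 →
  340 * (Nat.log 2 K.index + 1) ≤ g → ∃ (k : ℕ) (φ : MulAut (F g 0)), 1 ≤ k ∧ 1 + 3 * k ≤ g ∧
    φ ∈ MB g 0 ∧ LG (lst (MonoidHom.id (F g 0)) 0 g) (lst (MulEquiv.toMonoidHom φ) 0 g) ∧
    ∀ t, t < 3 → Jf (K.comap φ.toMonoidHom) (bk g 0 k t)

/-- (Bcg) As `PWG.St_Bsc`, for `n = 0`, with products of letters of reached lists.
Proof.  Copy PWG/Tbs, Emi, Ele, Eri, Bsc with `Lg` in the place of `Lb` (and `TT`, `EE` for `Lg`): `St_Tbs` (6) is the definition of `Lg`, `St_Prd` is not needed.  In `St_Emi` only `θ = 1` and the rotation of the handle `i` are used; the element `a * θ (gb i) * x` is a product of letters of the list with the handle `i` rotated, which is reached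
(`LG [p] [rt p]`, in context). -/
def St_Bcg : Prop := ∀ {g k : ℕ} (K : Subgroup (F g 0)), 1 ≤ k → 1 + 3 * k ≤ g →
  (∀ t, t < 3 → Jf K (bk g 0 k t)) → ∀ x ∈ K, x ∈ Lg K

/-- (Bsg) Proof.  `St_Blg`, `St_Bcg` for `K.comap φ`; `φ` maps `Sg` to `Sg`: `x ∈ Ds ⊤ (L''.map snd)`, `LG (lst id) L''`, so `LG (lst φ) (L''.map (φ, φ))` (`St_Nat`), and `LG (lst id) (lst φ)`; `Ds` of the image: `PWE.St_Dsp` (3). -/
def St_Bsg : Prop := St_Lup → St_Nat → St_Blg → St_Bcg → ∀ {g : ℕ} (K : Subgroup (F g 0)),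
  K.index ≠ 0 → 340 * (Nat.log 2 K.index + 1) ≤ g → ∀ x ∈ K, x ∈ Lg K

/-- (Bs2) **Letters generate.**
Proof.  `m = J.length`, `u : F m 0 →* Γ` the homomorphism with `(u (ga i), u (gb i))` the pair of `J[i]` (`FreeGroup.lift`); its range is `SpQ.E J`, `lst u 0 m = pr id J`.  `K = Λ.comap u`, `K.index ≠ 0`, `K.index ≤ Λ.index ≤ 2 ^ ℓ` (`Subgroup.index_comap`, relIndex), so `Nat.log 2 K.index ≤ ℓ`.  `St_Bsg`.
For `x ∈ K` with `Sg x`: `St_Nat`: `LG (pr id J) (L'.map (u, u))`, `u x ∈ Ds ⊤ ((L'.map (u, u)).map snd)` (`PWE.St_Dsp` (3)), so by `St_Fcd` `u x = 1` or `(u x)⁻¹ ∈ fc J (-1)`: in both cases `u x` is in the closure.  So `K.map u` is in the closure, and `Λ ⊓ SpQ.E J = K.map u`. -/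
def St_Bs2 : Prop := St_Lgw → St_Nat → St_Lup → St_Fcd → St_Blg → St_Bcg → St_Bsg → ARH.St_Bsd

/-! ### Punctures (ARH.St_Red) -/

/-- (Rd2) After moves the handles alone are transitive on the orbit.
Proof.  `Ω = Γ ⧸ Λ`, `f = MulAction.toPermHom Γ Ω`, `x B' = no Ω (pr f B')`.  Among the `(X', B')` reachable from `(X, B)`, `|B'| = |B|`, choose one with `x B'` minimal; rename it `(X, B)` (`GI` does not change).  `PWE.thm_Orb` for `k = |B| - 1` (`(7/8)^(|B|-1) |Ω| < 1`): some `L ∈ cls (pr f B)` has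
`no Ω (L.take (|B| - 1)) ≤ x B`; `St_Lgw`: `B ~ B₁ ++ [p]`, the groups `E B₁ ≤ E B` have the same orbits.  `SpQ.move_front`: `B₁ ++ [p] ~ p' :: B₁`, `p' = cj1 w p`.  Let `S` be the subgroup of the `z` which map every orbit of `E B₁` to itself (`E B ≤ S`).  Claim: `GI X ≤ S`; then `GI (X ++ hl B) ≤ S` and the orbit of the base coset under
`S` is that under `E B₁ ≤ E B`.  Suppose `X = X₁ ++ i :: X₂`, `GI X₂ ≤ S`, a letter of `i` is not in `S`.
Case `i = inl h`: move `h` to the right over `X₂` and `p'`, unchanged (`LGC.IReach` mirror of `move_right'`: `IStep.br`): the list `X' ++ hl (h :: B₁)` is reachable, `|h :: B₁| = |B|`, `E (h :: B₁) ≥ E B₁` and it is not in `S`: fewer orbits (`PWE.St_Mrg` or directly): contradiction to minimality.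
Case `i = inr y`: move `p'` to the left over `X₂` (it becomes `p''`, conjugated by an element of `GI X₂ ≤ S`, entries in `S`) and then over `y` unchanged (`IStep.br'`): `X₁ ++ inl p'' :: inr y' :: X₂ ++ hl B₁`, `y' = (bd p'')⁻¹ y (bd p'') ∉ S`.  `IStep.ab`: `p'' = (a, b)` becomes `p₃ = (a, y'⁻¹ b)`, `y'⁻¹ b ∉ S`.  Move `p₃` to the right,
unchanged: `X' ++ hl (p₃ :: B₁)`: contradiction as before. -/
def St_Rd2 : Prop := St_Lgw → St_Orn → ARH.St_Red

end Pool.Agent.LGU
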